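import Pool.Agent.V1142.PA.F

/-! Wrapping up, over number fields. -/

set_option autoImplicit false
set_option linter.all false

namespace Pool.Agent.V1142.PA

open NumberField Filter Topology IsDedekindDomain Pool.Agent.Y800

variable {F : Type} [Field F] [NumberField F] {n : ℕ}

theorem finite_above (ℓ : ℕ) (hℓ : ℓ ≠ 0) : {v : HeightOneSpectrum (𝓞 F) | (ℓ : 𝓞 F) ∈ v.asIdeal}.Finite := by
  have h1 : Ideal.span {(ℓ : 𝓞 F)} ≠ 0 := by
    rw [Ne, Ideal.zero_eq_bot, Ideal.span_singleton_eq_bot]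
    exact_mod_cast hℓ
  refine (Ideal.finite_factors h1).subset fun v hv => ?_
  show v.asIdeal ∣ _
  rw [Ideal.dvd_span_singleton]
  exact hv

theorem exists_patchF (S₀ : Set (HeightOneSpectrum (𝓞 F))) (hS₀ : S₀.Finite) (ℓ : ℕ) [Fact ℓ.Prime]
    (s : HeightOneSpectrum (𝓞 F) → Fin n → PadicAlgCl ℓ) {I : Type} (K : I → Ext F)
    (hfin : ∀ i, FiniteDimensional F (K i)) (hK : AmpleF K) (S : I → Set (HeightOneSpectrum (𝓞 F)))
    (hS : ∀ i, (S i).Finite) (h : ∀ i, RepOver (K i) (S₀ ∪ S i) ℓ s) :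
    ∃ r : GF F →* GL (Fin n) (PadicAlgCl ℓ), Continuous r ∧ IsSemisimpleG r ∧
      ∀ v ∉ S₀, (ℓ : 𝓞 F) ∉ v.asIdeal → (∃ i, v ∉ S i ∧ HasLocalDegreeOneF (K i) v) →
        CorrespondsF r v (s v) := by
  classical
  choose ρ h1 h2 h3 using h
  have hℓ := finite_above (F := F) ℓ (Fact.out : ℓ.Prime).ne_zero
  obtain ⟨R, hR1, hR2, hR3, hR4⟩ := patching_galoisF K hfin hK
    (fun i => hS₀.toFinset ∪ hℓ.toFinset ∪ (hS i).toFinset) s ρ h1 h2 (by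
      intro i v hv
      simp only [Finset.mem_union, Set.Finite.mem_toFinset, Set.mem_setOf_eq, not_or] at hv
      exact h3 i v (fun h => h.elim hv.1.1 hv.2) hv.1.2)
  refine ⟨R, hR1, hR2, fun v hv hvℓ hvi => ?_⟩
  obtain ⟨i, hi, hloc⟩ := hvi
  refine hR4 v ⟨i, ?_, hloc⟩
  simp only [Finset.mem_union, Set.Finite.mem_toFinset, Set.mem_setOf_eq, not_or]
  exact ⟨⟨hv, hvℓ⟩, hi⟩

theorem restrict_repF {S S' : Set (HeightOneSpectrum (𝓞 F))} (hSS : S ⊆ S') (ℓ : ℕ) [Fact ℓ.Prime]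
    (s : HeightOneSpectrum (𝓞 F) → Fin n → PadicAlgCl ℓ) (K : Ext F) (hfin : FiniteDimensional F K)
    (h : RepF S ℓ s) : RepOver K S' ℓ s := by
  obtain ⟨ρ, h1, h2, h3⟩ := h
  have := fin_index (fixing_openF K hfin)
  refine ⟨ρ.comp (GE K).subtype, h1.comp continuous_subtype_val, restrict_ss ρ (GE K) h2, ?_⟩
  intro v hv hvℓ P hP σ hσ
  obtain ⟨h4, h5⟩ := h3 v (fun h => hv (hSS h)) hvℓ
  exact ⟨fun τ hτ => h4 P hP τ hτ, h5 P hP σ hσ⟩

end Pool.Agent.V1142.PA
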