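import Pool.Agent.V1142.PA.Main

/-! Two subgroups suffice. -/

set_option autoImplicit false
set_option linter.all false

namespace Pool.Agent.V1142.PA

open Pool.Agent.Y800

variable {k : Type} [Field k] {n : ℕ} {G : Type} [Group G] [TopologicalSpace G] [IsTopologicalGroup G]
  [CompactSpace G] [TotallyDisconnectedSpace G]

/-- **Two subgroups suffice.** -/
theorem two_subgroups [CharZero k] (U₀ : Subgroup G) (hU₀ : IsOpen (U₀ : Set G))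
    (ρ₀ : U₀ →* GL (Fin n) k) (hρ₀ : IsSemisimpleRep ρ₀) :
    ∃ M : Subgroup G, M.Normal ∧ IsOpen (M : Set G) ∧ ∀ U₁ : Subgroup G, IsOpen (U₁ : Set G) →
      (∀ x : G, ∃ u ∈ U₁, ∃ m ∈ M, x = u * m) → ∀ ρ₁ : U₁ →* GL (Fin n) k, IsSemisimpleRep ρ₁ →
      (∀ (x : G) (h0 : x ∈ U₀) (h1 : x ∈ U₁), (ρ₀ ⟨x, h0⟩ : Matrix (Fin n) (Fin n) k).trace =
        (ρ₁ ⟨x, h1⟩ : Matrix (Fin n) (Fin n) k).trace) →
      ∃ R : G →* GL (Fin n) k, IsSemisimpleRep R ∧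
        (∃ P : GL (Fin n) k, ∀ u : U₀, R u = P * ρ₀ u * P⁻¹) ∧
        ∃ P : GL (Fin n) k, ∀ u : U₁, R u = P * ρ₁ u * P⁻¹ := by
  classical
  obtain ⟨N, hN, hNo, hNU⟩ := exists_normal U₀ hU₀
  have hfinN := Subgroup.quotient_finite_of_isOpen _ hNo
  have := Fintype.ofFinite (G ⧸ N)
  let σ : N →* GL (Fin n) k := ρ₀.comp (Subgroup.inclusion hNU)
  have hσ : IsSemisimpleRep σ := ss_incl hNU hNo ρ₀ hρ₀
  obtain ⟨M, hM, hMo, hMN, hg⟩ := exists_good (k := k) (Sg σ) N hN hNo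
  obtain ⟨L0, hL0⟩ := exists_L σ (1 : G)
  have hL0' : ∀ h : N, L0 (Sg σ h) = (σ h : GL (Fin n) k) := by
    intro h
    rw [hL0 h (cmem _ h)]
    congr 2
    apply Subtype.ext
    simp
  have trc : ∀ (P g : GL (Fin n) k), ((P * g * P⁻¹ : GL (Fin n) k) : Matrix (Fin n) (Fin n) k).trace =
      (g : Matrix (Fin n) (Fin n) k).trace := by
    intro P g
    rw [Units.val_mul, Matrix.trace_mul_comm, Units.val_mul, ← mul_assoc, ← Units.val_mul, inv_mul_cancel,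
      Units.val_one, one_mul]
  refine ⟨M, hM, hMo, fun U₁ hU₁ hUM ρ₁ hρ₁ htr => ?_⟩
  obtain ⟨R, hRss, hRN, P, hP⟩ := two hNo hU₁ σ hσ ρ₁ hρ₁ (fun x h1 h2 => htr x (hNU h1) h2) hMo hMN hg hUM
  have hR1 : ∀ (x : G) (h : x ∈ U₁), (R x : Matrix (Fin n) (Fin n) k).trace =
      (ρ₁ ⟨x, h⟩ : Matrix (Fin n) (Fin n) k).trace := by
    intro x h
    rw [show R x = P * ρ₁ ⟨x, h⟩ * P⁻¹ from hP ⟨x, h⟩, trc]
  refine ⟨R, hRss, ?_, P, hP⟩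
  have hR0 : ∀ x : U₀, (R x : Matrix (Fin n) (Fin n) k).trace = (ρ₀ x : Matrix (Fin n) (Fin n) k).trace := by
    intro x
    obtain ⟨u, hu, m, hm, hx⟩ := hUM x
    have hm0 : m ∈ U₀ := hNU (hMN hm)
    have hu0 : u ∈ U₀ := by
      have : u = x * m⁻¹ := by rw [hx]; group
      rw [this]
      exact U₀.mul_mem x.2 (U₀.inv_mem hm0)
    obtain ⟨M', h1, h2, h3⟩ := exists_normal (M ⊓ U₁) (hMo.inter hU₁)
    have h4 : Sg σ ⟨m, hMN hm⟩ ∈ Sv (k := k) (Sg σ) M' :=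
      hg M' h1 h2 (h3.trans inf_le_left) (Submodule.subset_span ⟨⟨m, hMN hm⟩, hm, rfl⟩)
    let φ : (G ⧸ N → Matrix (Fin n) (Fin n) k) →ₗ[k] k :=
      (Matrix.traceLinearMap (Fin n) k k ∘ₗ LinearMap.mulLeft k (R u : Matrix (Fin n) (Fin n) k) ∘ₗ L0) -
      (Matrix.traceLinearMap (Fin n) k k ∘ₗ LinearMap.mulLeft k (ρ₀ ⟨u, hu0⟩ : Matrix (Fin n) (Fin n) k) ∘ₗ L0)
    have hφ : ∀ v : N, φ (Sg σ v) = (R (u * v) : Matrix (Fin n) (Fin n) k).trace -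
        (ρ₀ ⟨u * v, U₀.mul_mem hu0 (hNU v.2)⟩ : Matrix (Fin n) (Fin n) k).trace := by
      intro v
      show ((R u : Matrix (Fin n) (Fin n) k) * L0 (Sg σ v)).trace -
        ((ρ₀ ⟨u, hu0⟩ : Matrix (Fin n) (Fin n) k) * L0 (Sg σ v)).trace = _
      have e : (⟨u * v, U₀.mul_mem hu0 (hNU v.2)⟩ : U₀) = ⟨u, hu0⟩ * Subgroup.inclusion hNU v := rfl
      rw [hL0', map_mul, hRN, e, map_mul, Units.val_mul, Units.val_mul]
      rfl
    have h5 : Sv (k := k) (Sg σ) M' ≤ LinearMap.ker φ := by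
      refine Submodule.span_le.2 ?_
      rintro b ⟨v, hv, rfl⟩
      show φ (Sg σ v) = 0
      have hv' := (h3 hv).2
      rw [hφ, hR1 (u * v) (U₁.mul_mem hu hv'), htr (u * v) (U₀.mul_mem hu0 (hNU v.2)) (U₁.mul_mem hu hv'),
        sub_self]
    have h6 : φ (Sg σ ⟨m, hMN hm⟩) = 0 := h5 h4
    rw [hφ, sub_eq_zero] at h6
    have h7 : (⟨u * m, U₀.mul_mem hu0 hm0⟩ : U₀) = x := Subtype.ext hx.symm
    rw [hx]
    rw [← h7]
    exact h6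
  have := fin_index hU₀
  obtain ⟨Q, hQ⟩ := conj_of_traces hρ₀ (restrict_ss R U₀ hRss) (fun g => (hR0 g).symm)
  exact ⟨Q, hQ⟩

end Pool.Agent.V1142.PA
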