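import Pool.Agent.V1142.PA.ADefs
import Pool.Agent.V1142.PA.F2
import Pool.Agent.V1142.PA.Two

/-! Two extensions suffice. -/

set_option autoImplicit false
set_option linter.all false

namespace Pool.Agent.V1142.PA

open NumberField Filter Topology IsDedekindDomain Pool.Agent.Y800 Polynomial

variable {F : Type} [Field F] [NumberField F] {n : ℕ}

theorem sup_of_inf {L : Ext F} (M : Subgroup (GF F)) (hM : M.Normal) (hMo : IsOpen (M : Set (GF F)))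
    (hi : L ⊓ (IntermediateField.fixedField M : Ext F) = ⊥) (x : GF F) :
    ∃ u ∈ GE L, ∃ m ∈ M, x = u * m := by
  have hMc : IsClosed (M : Set (GF F)) := Subgroup.isClosed_of_isOpen M hMo
  set J : Subgroup (GF F) := GE L ⊔ M with hJ
  have hJo : IsOpen (J : Set (GF F)) := Subgroup.isOpen_mono le_sup_right hMo
  have hJc : IsClosed (J : Set (GF F)) := Subgroup.isClosed_of_isOpen J hJo
  have e2 : (IntermediateField.fixedField J).fixingSubgroup = J :=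
    InfiniteGalois.fixingSubgroup_fixedField ⟨J, hJc⟩
  have e3 : (IntermediateField.fixedField J : Ext F) = ⊥ := by
    rw [eq_bot_iff, ← hi]
    refine le_inf ?_ ?_
    · have h1 : (IntermediateField.fixedField J : Ext F) ≤ IntermediateField.fixedField (GE L) := by
        intro y hy g
        exact hy ⟨g.1, (le_sup_left : GE L ≤ J) g.2⟩
      rwa [show GE L = L.fixingSubgroup from rfl, InfiniteGalois.fixedField_fixingSubgroup] at h1
    · intro y hy g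
      exact hy ⟨g.1, (le_sup_right : M ≤ J) g.2⟩
  have e4 : J = ⊤ := by
    rw [← e2, e3]
    exact IntermediateField.fixingSubgroup_bot
  have hx : x ∈ J := by rw [e4]; trivial
  obtain ⟨u, hu, m, hm, h⟩ := Subgroup.mem_sup_of_normal_right.1 hx
  exact ⟨u, hu, m, hm, h.symm⟩

/-- arithmetic Frobenius elements are dense -/
theorem dense_frobA (O : Set (GF F)) (hO : IsOpen O) {g : GF F} (hg : g ∈ O)
    (S : Finset (HeightOneSpectrum (𝓞 F))) :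
    ∃ v : HeightOneSpectrum (𝓞 F), v ∉ S ∧ ∃ P, Above v P ∧ ∃ σ : GF F, IsFrobA v P σ ∧ σ ∈ O := by
  obtain ⟨v, hv, P, hP, σ, hσ, hσO⟩ := dense_frobF ((fun x => x⁻¹) ⁻¹' O) (hO.preimage continuous_inv)
    (g := g⁻¹) (by show (g⁻¹)⁻¹ ∈ O; rwa [inv_inv]) S
  refine ⟨v, hv, P, hP, σ⁻¹, fun x => ?_, hσO⟩
  have := hσ (σ⁻¹ • x)
  rwa [smul_inv_smul] at this

theorem traces_interA {k : Type} [Field k] [TopologicalSpace k] [IsTopologicalRing k] [T2Space k]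
    {K K' : Ext F} (hK : FiniteDimensional F K) (hK' : FiniteDimensional F K')
    (Z : Finset (HeightOneSpectrum (𝓞 F)))
    (ρ : GE K →* GL (Fin n) k) (ρ' : GE K' →* GL (Fin n) k) (hρ : Continuous ρ) (hρ' : Continuous ρ')
    (hc : ∀ v, v ∉ Z → ∀ P, Above v P → ∀ (x : GF F) (h1 : x ∈ GE K) (h2 : x ∈ GE K'), IsFrobA v P x →
      (ρ ⟨x, h1⟩ : Matrix (Fin n) (Fin n) k).trace = (ρ' ⟨x, h2⟩ : Matrix (Fin n) (Fin n) k).trace)
    (x : GF F) (h1 : x ∈ GE K) (h2 : x ∈ GE K') :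
    (ρ ⟨x, h1⟩ : Matrix (Fin n) (Fin n) k).trace = (ρ' ⟨x, h2⟩ : Matrix (Fin n) (Fin n) k).trace := by
  have htrc : Continuous fun g : GE K => (ρ g : Matrix (Fin n) (Fin n) k).trace :=
    (Units.continuous_val.comp hρ).matrix_trace
  have htrc' : Continuous fun g : GE K' => (ρ' g : Matrix (Fin n) (Fin n) k).trace :=
    (Units.continuous_val.comp hρ').matrix_trace
  by_contra hne
  let H : Subgroup (GF F) := GE K ⊓ GE K'
  have hHo : IsOpen (H : Set (GF F)) := (fixing_openF K hK).inter (fixing_openF K' hK')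
  let O' : Set H := {g | (ρ ⟨g, g.2.1⟩ : Matrix (Fin n) (Fin n) k).trace ≠
    (ρ' ⟨g, g.2.2⟩ : Matrix (Fin n) (Fin n) k).trace}
  have hO' : IsOpen O' := by
    refine isOpen_ne_fun ?_ ?_
    · exact htrc.comp (Continuous.subtype_mk continuous_subtype_val fun g : H => g.2.1)
    · exact htrc'.comp (Continuous.subtype_mk continuous_subtype_val fun g : H => g.2.2)
  have hO : IsOpen (Subtype.val '' O' : Set (GF F)) := hHo.isOpenMap_subtype_val _ hO'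
  have hxO : x ∈ (Subtype.val '' O' : Set (GF F)) := ⟨⟨x, h1, h2⟩, hne, rfl⟩
  obtain ⟨v, hv, P, hP, σ, hσ, g, hg, hgσ⟩ := dense_frobA _ hO hxO Z
  have hσ' : IsFrobA v P g := by rw [hgσ]; exact hσ
  exact hg (hc v hv P hP g g.2.1 g.2.2 hσ')

theorem charpoly_conj' {k : Type*} [Field k] (P g : GL (Fin n) k) :
    ((P * g * P⁻¹ : GL (Fin n) k) : Matrix (Fin n) (Fin n) k).charpoly = (g : Matrix (Fin n) (Fin n) k).charpoly := by
  rw [Units.val_mul, Units.val_mul, Matrix.coe_units_inv]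
  exact Matrix.charpoly_units_conj P _

theorem condI_of_restrict {k : Type} [Field k] {L : Ext F} (ρ : GE L →* GL (Fin 2) k)
    (R : GF F →* GL (Fin 2) k) (h : GL (Fin 2) k) (hh : ∀ g : GE L, R g = h * ρ g * h⁻¹)
    (v : HeightOneSpectrum (𝓞 F)) (a b : k) (hc : CondIDegreeOne ρ v a b)
    (hloc : HasLocalDegreeOneF L v) : CondI R v a b := by
  obtain ⟨P₀, hP₀, hdec⟩ := hloc
  obtain ⟨P₁, σ₁, hP₁, hP₁v, hσ₁⟩ := Pool.Agent.W571.FM.frob_cm v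
  have hconj : ∀ Q, Above v Q → ∃ g : GF F, ∀ x : OB F, x ∈ Q ↔ g⁻¹ • x ∈ P₀ := by
    intro Q hQ
    exact Pool.Agent.W571.FM.exists_smul P₀ Q hP₀.1.isPrime hQ.1.isPrime (hP₀.2.trans hQ.2.symm)
  have hcA : ∀ (Q : Ideal (OB F)) (g σ : GF F), (∀ x : OB F, x ∈ Q ↔ g⁻¹ • x ∈ P₀) → IsFrobA v Q σ →
      IsFrobA v P₀ (g⁻¹ * σ * g) := by
    intro Q g σ hg hσ x
    have h1 := (hg _).1 (hσ (g • x))
    rw [smul_sub, smul_pow', inv_smul_smul, smul_smul, smul_smul] at h1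
    exact h1
  have hfrob_mem : ∀ σ : GF F, IsFrobA v P₀ σ → σ ∈ GE L := by
    intro σ hσ
    refine hdec σ fun x hx => ?_
    have hN : Ideal.absNorm v.asIdeal ≠ 0 := by
      intro h0
      exact v.ne_bot (Ideal.absNorm_eq_zero_iff.1 h0)
    have := P₀.add_mem (hσ x) (P₀.pow_mem_of_mem hx _ (Nat.pos_of_ne_zero hN))
    rwa [sub_add_cancel] at this
  have hin_mem : ∀ τ : GF F, InInertiaF P₀ τ → τ ∈ GE L := by
    intro τ hτ
    refine hdec τ fun x hx => ?_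
    have := P₀.add_mem (hτ x) hx
    rwa [sub_add_cancel] at this
  obtain ⟨g₁, hg₁⟩ := hconj P₁ ⟨hP₁, hP₁v⟩
  have hσ₀ := hcA P₁ g₁ σ₁ hg₁ hσ₁
  have hunr := (hc P₀ hP₀ ⟨_, hfrob_mem _ hσ₀⟩ hσ₀).1
  constructor
  · intro Q hQ τ hτ
    obtain ⟨g, hg⟩ := hconj Q hQ
    have hτ' : InInertiaF P₀ (g⁻¹ * τ * g) := by
      intro x
      have h1 := (hg _).1 (hτ (g • x))
      rw [smul_sub, inv_smul_smul, smul_smul, smul_smul] at h1
      exact h1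
    have h2 : R (g⁻¹ * τ * g) = 1 := by
      rw [show R (g⁻¹ * τ * g) = h * ρ ⟨_, hin_mem _ hτ'⟩ * h⁻¹ from hh ⟨_, hin_mem _ hτ'⟩, hunr _ hτ',
        mul_one, mul_inv_cancel]
    rw [map_mul, map_mul, map_inv] at h2
    have h3 : R τ = R g * ((R g)⁻¹ * R τ * R g) * (R g)⁻¹ := by group
    rw [h3, h2, mul_one, mul_inv_cancel]
  · intro Q hQ σ hσ
    obtain ⟨g, hg⟩ := hconj Q hQ
    have hσ' := hcA Q g σ hg hσ
    have hy := (hc P₀ hP₀ ⟨_, hfrob_mem _ hσ'⟩ hσ').2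
    have h2 : R (g⁻¹ * σ * g) = h * ρ ⟨_, hfrob_mem _ hσ'⟩ * h⁻¹ := hh ⟨_, hfrob_mem _ hσ'⟩
    have h3 : R σ = R g * (h * ρ ⟨_, hfrob_mem _ hσ'⟩ * h⁻¹) * (R g)⁻¹ := by
      rw [map_mul, map_mul, map_inv] at h2
      rw [← h2]
      group
    rw [h3, charpoly_conj', charpoly_conj', hy]

/-- **Two extensions suffice.** -/
theorem two_extensions {k : Type} [Field k] [CharZero k] [TopologicalSpace k] [IsTopologicalRing k]
    [T2Space k] (a b : HeightOneSpectrum (𝓞 F) → k) (L₀ : Ext F) (hL₀ : FiniteDimensional F L₀)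
    (ρ₀ : GE L₀ →* GL (Fin 2) k) (hρ₀ : Continuous ρ₀) (hss₀ : IsSemisimpleG ρ₀)
    (Z₀ : Finset (HeightOneSpectrum (𝓞 F))) (hc₀ : ∀ v ∉ Z₀, CondIDegreeOne ρ₀ v (a v) (b v)) :
    ∃ M : Ext F, FiniteDimensional F M ∧ ∀ L₁ : Ext F, FiniteDimensional F L₁ → L₁ ⊓ M = ⊥ →
      ∀ ρ₁ : GE L₁ →* GL (Fin 2) k, Continuous ρ₁ → IsSemisimpleG ρ₁ →
      ∀ Z₁ : Finset (HeightOneSpectrum (𝓞 F)), (∀ v ∉ Z₁, CondIDegreeOne ρ₁ v (a v) (b v)) →
      ∃ R : GF F →* GL (Fin 2) k, Continuous R ∧ IsSemisimpleG R ∧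
        (∃ h : GL (Fin 2) k, ∀ g : GE L₀, R g = h * ρ₀ g * h⁻¹) ∧
        (∃ h : GL (Fin 2) k, ∀ g : GE L₁, R g = h * ρ₁ g * h⁻¹) ∧
        (∀ v ∉ Z₀, HasLocalDegreeOneF L₀ v → CondI R v (a v) (b v)) ∧
        ∀ v ∉ Z₁, HasLocalDegreeOneF L₁ v → CondI R v (a v) (b v) := by
  classical
  obtain ⟨M, hM, hMo, key⟩ := two_subgroups (GE L₀) (fixing_openF L₀ hL₀) ρ₀ hss₀
  have hMc : IsClosed (M : Set (GF F)) := Subgroup.isClosed_of_isOpen M hMo
  have e1 : (IntermediateField.fixedField M).fixingSubgroup = M :=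
    InfiniteGalois.fixingSubgroup_fixedField ⟨M, hMc⟩
  have hfd : FiniteDimensional F (IntermediateField.fixedField M : Ext F) := by
    rw [← InfiniteGalois.isOpen_iff_finite, e1]
    exact hMo
  refine ⟨IntermediateField.fixedField M, hfd, fun L₁ hL₁ hi ρ₁ hρ₁ hss₁ Z₁ hc₁ => ?_⟩
  obtain ⟨R, hRss, ⟨h₀, hh₀⟩, h₁, hh₁⟩ := key (GE L₁) (fixing_openF L₁ hL₁) (sup_of_inf M hM hMo hi) ρ₁ hss₁
    (traces_interA hL₀ hL₁ (Z₀ ∪ Z₁) ρ₀ ρ₁ hρ₀ hρ₁ (by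
      intro v hv P hP x h1 h2 hx
      rw [Finset.mem_union, not_or] at hv
      rw [Matrix.trace_eq_neg_charpoly_nextCoeff, Matrix.trace_eq_neg_charpoly_nextCoeff,
        (hc₀ v hv.1 P hP ⟨x, h1⟩ hx).2, (hc₁ v hv.2 P hP ⟨x, h2⟩ hx).2]))
  exact ⟨R, continuous_of_restrict hL₀ ρ₀ hρ₀ R h₀ hh₀, hRss, ⟨h₀, hh₀⟩, ⟨h₁, hh₁⟩,
    fun v hv hloc => condI_of_restrict ρ₀ R h₀ hh₀ v _ _ (hc₀ v hv) hloc,
    fun v hv hloc => condI_of_restrict ρ₁ R h₁ hh₁ v _ _ (hc₁ v hv) hloc⟩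

end Pool.Agent.V1142.PA
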