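import Pool.Agent.V1142.PA.A

/-! Irreducibility, wrapping up. -/

set_option autoImplicit false
set_option linter.all false

namespace Pool.Agent.V1142.PA

open NumberField Filter Topology IsDedekindDomain Pool.Agent.Y800 Polynomial

variable {F : Type} [Field F] [NumberField F]

theorem irr_of_restrict {k : Type} [Field k] {L : Ext F} (ρ : GE L →* GL (Fin 2) k)
    (R : GF F →* GL (Fin 2) k) (h : GL (Fin 2) k) (hh : ∀ g : GE L, R g = h * ρ g * h⁻¹)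
    (hirr : IsIrrG ρ) : IsIrrG R := by
  intro W hW
  have hinj : ∀ v : Fin 2 → k, ((h⁻¹ : GL (Fin 2) k) : Matrix (Fin 2) (Fin 2) k).mulVec
      ((h : Matrix (Fin 2) (Fin 2) k).mulVec v) = v := by
    intro v
    rw [Matrix.mulVec_mulVec, ← Units.val_mul, inv_mul_cancel, Units.val_one, Matrix.one_mulVec]
  have hinj' : ∀ v : Fin 2 → k, (h : Matrix (Fin 2) (Fin 2) k).mulVec
      (((h⁻¹ : GL (Fin 2) k) : Matrix (Fin 2) (Fin 2) k).mulVec v) = v := by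
    intro v
    rw [Matrix.mulVec_mulVec, ← Units.val_mul, mul_inv_cancel, Units.val_one, Matrix.one_mulVec]
  rcases hirr (W.comap (Matrix.mulVecLin (h : Matrix (Fin 2) (Fin 2) k))) (by
    intro g w hw
    show (h : Matrix (Fin 2) (Fin 2) k).mulVec ((ρ g : Matrix (Fin 2) (Fin 2) k).mulVec w) ∈ W
    have h1 := hW g _ (show (h : Matrix (Fin 2) (Fin 2) k).mulVec w ∈ W from hw)
    rw [hh g, Units.val_mul, Units.val_mul, ← Matrix.mulVec_mulVec, ← Matrix.mulVec_mulVec, hinj] at h1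
    exact h1) with h2 | h2
  · left
    rw [eq_bot_iff]
    intro w hw
    have h3 : ((h⁻¹ : GL (Fin 2) k) : Matrix (Fin 2) (Fin 2) k).mulVec w ∈
        (W.comap (Matrix.mulVecLin (h : Matrix (Fin 2) (Fin 2) k))) := by
      show (h : Matrix (Fin 2) (Fin 2) k).mulVec _ ∈ W
      rw [hinj']
      exact hw
    rw [h2, Submodule.mem_bot] at h3
    rw [Submodule.mem_bot, ← hinj' w, h3, Matrix.mulVec_zero]
  · right
    rw [eq_top_iff]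
    intro w _
    have h3 : ((h⁻¹ : GL (Fin 2) k) : Matrix (Fin 2) (Fin 2) k).mulVec w ∈
        (W.comap (Matrix.mulVecLin (h : Matrix (Fin 2) (Fin 2) k))) := by rw [h2]; trivial
    have h4 : (h : Matrix (Fin 2) (Fin 2) k).mulVec
      (((h⁻¹ : GL (Fin 2) k) : Matrix (Fin 2) (Fin 2) k).mulVec w) ∈ W := h3
    rwa [hinj'] at h4

theorem two_ext_main (l : ℕ) [Fact l.Prime] (Z : Set (HeightOneSpectrum (𝓞 F))) (hZ : Z.Finite)
    (a b : HeightOneSpectrum (𝓞 F) → PadicAlgCl l) (L₀ : Ext F) (hL₀ : FiniteDimensional F L₀)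
    (ρ₀ : GE L₀ →* GL (Fin 2) (PadicAlgCl l)) (hρ₀ : Continuous ρ₀) (hss₀ : IsSemisimpleG ρ₀)
    (S₀ : Set (HeightOneSpectrum (𝓞 F))) (hS₀ : S₀.Finite)
    (hc₀ : ∀ v ∉ Z ∪ S₀, (l : 𝓞 F) ∉ v.asIdeal → CondIDegreeOne ρ₀ v (a v) (b v)) :
    ∃ M : Ext F, FiniteDimensional F M ∧ ∀ L₁ : Ext F, FiniteDimensional F L₁ → L₁ ⊓ M = ⊥ →
      ∀ ρ₁ : GE L₁ →* GL (Fin 2) (PadicAlgCl l), Continuous ρ₁ → IsSemisimpleG ρ₁ →
      ∀ S₁ : Set (HeightOneSpectrum (𝓞 F)), S₁.Finite →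
      (∀ v ∉ Z ∪ S₁, (l : 𝓞 F) ∉ v.asIdeal → CondIDegreeOne ρ₁ v (a v) (b v)) →
      ∃ ρ : GF F →* GL (Fin 2) (PadicAlgCl l), Continuous ρ ∧ IsSemisimpleG ρ ∧
        (∃ h : GL (Fin 2) (PadicAlgCl l), ∀ g : GE L₀, ρ g = h * ρ₀ g * h⁻¹) ∧
        (∃ h : GL (Fin 2) (PadicAlgCl l), ∀ g : GE L₁, ρ g = h * ρ₁ g * h⁻¹) ∧
        (IsIrrG ρ₀ ∨ IsIrrG ρ₁ → IsIrrG ρ) ∧
        ∀ v ∉ Z, (l : 𝓞 F) ∉ v.asIdeal →
          (v ∉ S₀ ∧ HasLocalDegreeOneF L₀ v) ∨ (v ∉ S₁ ∧ HasLocalDegreeOneF L₁ v) →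
          CondI ρ v (a v) (b v) := by
  classical
  have hl := finite_above (F := F) l (Fact.out : l.Prime).ne_zero
  obtain ⟨M, hM, key⟩ := two_extensions a b L₀ hL₀ ρ₀ hρ₀ hss₀ (hZ.toFinset ∪ hl.toFinset ∪ hS₀.toFinset) (by
    intro v hv
    simp only [Finset.mem_union, Set.Finite.mem_toFinset, Set.mem_setOf_eq, not_or] at hv
    exact hc₀ v (fun h => h.elim hv.1.1 hv.2) hv.1.2)
  refine ⟨M, hM, fun L₁ hL₁ hi ρ₁ hρ₁ hss₁ S₁ hS₁ hc₁ => ?_⟩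
  obtain ⟨R, hR1, hR2, ⟨h₀, hh₀⟩, ⟨h₁, hh₁⟩, h5, h6⟩ := key L₁ hL₁ hi ρ₁ hρ₁ hss₁
    (hZ.toFinset ∪ hl.toFinset ∪ hS₁.toFinset) (by
    intro v hv
    simp only [Finset.mem_union, Set.Finite.mem_toFinset, Set.mem_setOf_eq, not_or] at hv
    exact hc₁ v (fun h => h.elim hv.1.1 hv.2) hv.1.2)
  refine ⟨R, hR1, hR2, ⟨h₀, hh₀⟩, ⟨h₁, hh₁⟩, ?_, ?_⟩
  · rintro (h | h)
    · exact irr_of_restrict ρ₀ R h₀ hh₀ h
    · exact irr_of_restrict ρ₁ R h₁ hh₁ h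
  · rintro v hv hvl (⟨h7, h8⟩ | ⟨h7, h8⟩)
    · refine h5 v ?_ h8
      simp only [Finset.mem_union, Set.Finite.mem_toFinset, Set.mem_setOf_eq, not_or]
      exact ⟨⟨hv, hvl⟩, h7⟩
    · refine h6 v ?_ h8
      simp only [Finset.mem_union, Set.Finite.mem_toFinset, Set.mem_setOf_eq, not_or]
      exact ⟨⟨hv, hvl⟩, h7⟩

end Pool.Agent.V1142.PA
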