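import Pool.Agent.V1142.PA.FDefs

/-! Two-dimensional representations over number fields: arithmetic Frobenius elements and
characteristic polynomials. -/

set_option autoImplicit false

namespace Pool.Agent.V1142.PA

open NumberField IsDedekindDomain Polynomial

variable {K : Type} [Field K] [NumberField K] {k : Type*} [Field k]

/-- `σ` is an arithmetic Frobenius element at `P`, which lies above `v`: it induces `x ↦ x ^ N(v)` on
the residue field. -/
def IsFrobA (v : HeightOneSpectrum (𝓞 K)) (P : Ideal (OB K)) (σ : GF K) : Prop :=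
  ∀ x : OB K, σ • x - x ^ Ideal.absNorm v.asIdeal ∈ P

/-- Condition (i) at the finite place `v` of `K`, for a representation of `Gal(K̄/K)`: it is unramified
at `v`, and the characteristic polynomial of the Frobenius elements is `X² - a X + b N(v)`. -/
def CondI (ρ : GF K →* GL (Fin 2) k) (v : HeightOneSpectrum (𝓞 K)) (a b : k) : Prop :=
  (∀ P, Above v P → ∀ τ, InInertiaF P τ → ρ τ = 1) ∧
  ∀ P, Above v P → ∀ σ, IsFrobA v P σ → (ρ σ : Matrix (Fin 2) (Fin 2) k).charpoly =
    X ^ 2 - C a * X + C (b * (Ideal.absNorm v.asIdeal : k))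

/-- Condition (i) for a representation of `Gal(K̄/L)` at the places of `L` above `v` of relative degree
one: it is unramified there, and the characteristic polynomial of the Frobenius elements is
`X² - a X + b N(v)`.  (`P` is a maximal ideal of the ring of all algebraic integers above `v`; the place
of `L` below `P` has relative degree one if and only if `Gal(K̄/L)` contains a Frobenius element of `K`
at `P`.) -/
def CondIDegreeOne {L : Ext K} (ρ : GE L →* GL (Fin 2) k) (v : HeightOneSpectrum (𝓞 K)) (a b : k) : Prop :=
  ∀ P, Above v P → ∀ σ : GE L, IsFrobA v P (σ : GF K) →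
    (∀ τ : GE L, InInertiaF P (τ : GF K) → ρ τ = 1) ∧
    (ρ σ : Matrix (Fin 2) (Fin 2) k).charpoly = X ^ 2 - C a * X + C (b * (Ideal.absNorm v.asIdeal : k))

/-- `ρ` is irreducible: there are exactly two stable subspaces. -/
def IsIrrG {H : Type*} [Group H] (ρ : H →* GL (Fin 2) k) : Prop :=
  ∀ W : Submodule k (Fin 2 → k), (∀ g, ∀ w ∈ W, (ρ g : Matrix (Fin 2) (Fin 2) k).mulVec w ∈ W) →
    W = ⊥ ∨ W = ⊤

end Pool.Agent.V1142.PA
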