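import Pool.Agent.V1142.PA.A2

/-! Two extensions suffice, for `GL_n`. -/

set_option autoImplicit false
set_option linter.all false

namespace Pool.Agent.V1142.PA

open NumberField Filter Topology IsDedekindDomain Pool.Agent.Y800 Polynomial

variable {F : Type} [Field F] [NumberField F] {n : ℕ}

/-- `ρ` is unramified at `v`, and `q` is the characteristic polynomial of the geometric Frobenius elements
at `v`. -/
def MatchF {k : Type*} [Field k] (ρ : GF F →* GL (Fin n) k) (v : HeightOneSpectrum (𝓞 F)) (q : k[X]) : Prop :=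
  (∀ P, Above v P → ∀ τ, InInertiaF P τ → ρ τ = 1) ∧
  ∀ P, Above v P → ∀ σ, IsGeomFrobF v P σ → (ρ σ : Matrix (Fin n) (Fin n) k).charpoly = q

/-- At the places of `K` above `v` of relative degree one, the representation `ρ` of `Gal(F̄/K)` is
unramified and `q` is the characteristic polynomial of the geometric Frobenius elements.  (`P` is a
maximal ideal of the ring of all algebraic integers above `v`; the place of `K` below `P` has relative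
degree one if and only if `Gal(F̄/K)` contains a geometric Frobenius element of `F` at `P`.) -/
def MatchDegreeOneF {k : Type*} [Field k] {K : Ext F} (ρ : GE K →* GL (Fin n) k)
    (v : HeightOneSpectrum (𝓞 F)) (q : k[X]) : Prop :=
  ∀ P, Above v P → ∀ σ : GE K, IsGeomFrobF v P (σ : GF F) →
    (∀ τ : GE K, InInertiaF P (τ : GF F) → ρ τ = 1) ∧
    (ρ σ : Matrix (Fin n) (Fin n) k).charpoly = q

/-- `ρ` is irreducible (or zero): there are no stable subspaces other than `0` and the whole space. -/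
def IrrN {k : Type*} [Field k] {H : Type*} [Group H] (ρ : H →* GL (Fin n) k) : Prop :=
  ∀ W : Submodule k (Fin n → k), (∀ g, ∀ w ∈ W, (ρ g : Matrix (Fin n) (Fin n) k).mulVec w ∈ W) →
    W = ⊥ ∨ W = ⊤

theorem irr_of_restrictN {k : Type} [Field k] {L : Ext F} (ρ : GE L →* GL (Fin n) k)
    (R : GF F →* GL (Fin n) k) (h : GL (Fin n) k) (hh : ∀ g : GE L, R g = h * ρ g * h⁻¹)
    (hirr : IrrN ρ) : IrrN R := by
  intro W hW
  have hinj : ∀ v : Fin n → k, ((h⁻¹ : GL (Fin n) k) : Matrix (Fin n) (Fin n) k).mulVec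
      ((h : Matrix (Fin n) (Fin n) k).mulVec v) = v := by
    intro v
    rw [Matrix.mulVec_mulVec, ← Units.val_mul, inv_mul_cancel, Units.val_one, Matrix.one_mulVec]
  have hinj' : ∀ v : Fin n → k, (h : Matrix (Fin n) (Fin n) k).mulVec
      (((h⁻¹ : GL (Fin n) k) : Matrix (Fin n) (Fin n) k).mulVec v) = v := by
    intro v
    rw [Matrix.mulVec_mulVec, ← Units.val_mul, mul_inv_cancel, Units.val_one, Matrix.one_mulVec]
  rcases hirr (W.comap (Matrix.mulVecLin (h : Matrix (Fin n) (Fin n) k))) (by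
    intro g w hw
    show (h : Matrix (Fin n) (Fin n) k).mulVec ((ρ g : Matrix (Fin n) (Fin n) k).mulVec w) ∈ W
    have h1 := hW g _ (show (h : Matrix (Fin n) (Fin n) k).mulVec w ∈ W from hw)
    rw [hh g, Units.val_mul, Units.val_mul, ← Matrix.mulVec_mulVec, ← Matrix.mulVec_mulVec, hinj] at h1
    exact h1) with h2 | h2
  · left
    rw [eq_bot_iff]
    intro w hw
    have h3 : ((h⁻¹ : GL (Fin n) k) : Matrix (Fin n) (Fin n) k).mulVec w ∈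
        (W.comap (Matrix.mulVecLin (h : Matrix (Fin n) (Fin n) k))) := by
      show (h : Matrix (Fin n) (Fin n) k).mulVec _ ∈ W
      rw [hinj']
      exact hw
    rw [h2, Submodule.mem_bot] at h3
    rw [Submodule.mem_bot, ← hinj' w, h3, Matrix.mulVec_zero]
  · right
    rw [eq_top_iff]
    intro w _
    have h3 : ((h⁻¹ : GL (Fin n) k) : Matrix (Fin n) (Fin n) k).mulVec w ∈
        (W.comap (Matrix.mulVecLin (h : Matrix (Fin n) (Fin n) k))) := by rw [h2]; trivial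
    have h4 : (h : Matrix (Fin n) (Fin n) k).mulVec
      (((h⁻¹ : GL (Fin n) k) : Matrix (Fin n) (Fin n) k).mulVec w) ∈ W := h3
    rwa [hinj'] at h4

theorem traces_interG {k : Type} [Field k] [TopologicalSpace k] [IsTopologicalRing k] [T2Space k]
    {K K' : Ext F} (hK : FiniteDimensional F K) (hK' : FiniteDimensional F K')
    (Z : Finset (HeightOneSpectrum (𝓞 F)))
    (ρ : GE K →* GL (Fin n) k) (ρ' : GE K' →* GL (Fin n) k) (hρ : Continuous ρ) (hρ' : Continuous ρ')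
    (hc : ∀ v, v ∉ Z → ∀ P, Above v P → ∀ (x : GF F) (h1 : x ∈ GE K) (h2 : x ∈ GE K'), IsGeomFrobF v P x →
      (ρ ⟨x, h1⟩ : Matrix (Fin n) (Fin n) k).trace = (ρ' ⟨x, h2⟩ : Matrix (Fin n) (Fin n) k).trace)
    (x : GF F) (h1 : x ∈ GE K) (h2 : x ∈ GE K') :
    (ρ ⟨x, h1⟩ : Matrix (Fin n) (Fin n) k).trace = (ρ' ⟨x, h2⟩ : Matrix (Fin n) (Fin n) k).trace := by
  have htrc : Continuous fun g : GE K => (ρ g : Matrix (Fin n) (Fin n) k).trace :=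
    (Units.continuous_val.comp hρ).matrix_trace
  have htrc' : Continuous fun g : GE K' => (ρ' g : Matrix (Fin n) (Fin n) k).trace :=
    (Units.continuous_val.comp hρ').matrix_trace
  by_contra hne
  let H : Subgroup (GF F) := GE K ⊓ GE K'
  have hHo : IsOpen (H : Set (GF F)) := (fixing_openF K hK).inter (fixing_openF K' hK')
  let O' : Set H := {g | (ρ ⟨g, g.2.1⟩ : Matrix (Fin n) (Fin n) k).trace ≠
    (ρ' ⟨g, g.2.2⟩ : Matrix (Fin n) (Fin n) k).trace}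
  have hO' : IsOpen O' := by
    refine isOpen_ne_fun ?_ ?_
    · exact htrc.comp (Continuous.subtype_mk continuous_subtype_val fun g : H => g.2.1)
    · exact htrc'.comp (Continuous.subtype_mk continuous_subtype_val fun g : H => g.2.2)
  have hO : IsOpen (Subtype.val '' O' : Set (GF F)) := hHo.isOpenMap_subtype_val _ hO'
  have hxO : x ∈ (Subtype.val '' O' : Set (GF F)) := ⟨⟨x, h1, h2⟩, hne, rfl⟩
  obtain ⟨v, hv, P, hP, σ, hσ, g, hg, hgσ⟩ := dense_frobF _ hO hxO Z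
  have hσ' : IsGeomFrobF v P g := by rw [hgσ]; exact hσ
  exact hg (hc v hv P hP g g.2.1 g.2.2 hσ')

theorem match_of_restrict {k : Type} [Field k] {K : Ext F} (ρ : GE K →* GL (Fin n) k)
    (R : GF F →* GL (Fin n) k) (h : GL (Fin n) k) (hh : ∀ g : GE K, R g = h * ρ g * h⁻¹)
    (v : HeightOneSpectrum (𝓞 F)) (q : k[X]) (hc : MatchDegreeOneF ρ v q)
    (hloc : HasLocalDegreeOneF K v) : MatchF R v q := by
  obtain ⟨P₀, hP₀, hdec⟩ := hloc
  obtain ⟨P₁, σ₁', hP₁, hP₁v, hσ₁'⟩ := Pool.Agent.W571.FM.frob_cm v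
  have hσ₁ : IsGeomFrobF v P₁ σ₁'⁻¹ := geom_of_arithF hσ₁'
  have hconj : ∀ Q, Above v Q → ∃ g : GF F, ∀ x : OB F, x ∈ Q ↔ g⁻¹ • x ∈ P₀ := by
    intro Q hQ
    exact Pool.Agent.W571.FM.exists_smul P₀ Q hP₀.1.isPrime hQ.1.isPrime (hP₀.2.trans hQ.2.symm)
  have hfrob_mem : ∀ σ : GF F, IsGeomFrobF v P₀ σ → σ ∈ GE K := by
    intro σ hσ
    refine hdec σ fun x hx => ?_
    have h1 : (σ • x) ^ Ideal.absNorm v.asIdeal ∈ P₀ := by
      have := P₀.sub_mem hx (hσ x)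
      rwa [sub_sub_cancel] at this
    exact hP₀.1.isPrime.mem_of_pow_mem _ h1
  have hin_mem : ∀ τ : GF F, InInertiaF P₀ τ → τ ∈ GE K := by
    intro τ hτ
    refine hdec τ fun x hx => ?_
    have := P₀.add_mem (hτ x) hx
    rwa [sub_add_cancel] at this
  obtain ⟨g₁, hg₁⟩ := hconj P₁ ⟨hP₁, hP₁v⟩
  have hσ₀ := geom_conjF' hg₁ hσ₁
  have hunr := (hc P₀ hP₀ ⟨_, hfrob_mem _ hσ₀⟩ hσ₀).1
  constructor
  · intro Q hQ τ hτ
    obtain ⟨g, hg⟩ := hconj Q hQ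
    have hτ' : InInertiaF P₀ (g⁻¹ * τ * g) := by
      intro x
      have h1 := (hg _).1 (hτ (g • x))
      rw [smul_sub, inv_smul_smul, smul_smul, smul_smul] at h1
      exact h1
    have h2 : R (g⁻¹ * τ * g) = 1 := by
      rw [show R (g⁻¹ * τ * g) = h * ρ ⟨_, hin_mem _ hτ'⟩ * h⁻¹ from hh ⟨_, hin_mem _ hτ'⟩, hunr _ hτ',
        mul_one, mul_inv_cancel]
    rw [map_mul, map_mul, map_inv] at h2
    have h3 : R τ = R g * ((R g)⁻¹ * R τ * R g) * (R g)⁻¹ := by group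
    rw [h3, h2, mul_one, mul_inv_cancel]
  · intro Q hQ σ hσ
    obtain ⟨g, hg⟩ := hconj Q hQ
    have hσ' := geom_conjF' hg hσ
    have hy := (hc P₀ hP₀ ⟨_, hfrob_mem _ hσ'⟩ hσ').2
    have h2 : R (g⁻¹ * σ * g) = h * ρ ⟨_, hfrob_mem _ hσ'⟩ * h⁻¹ := hh ⟨_, hfrob_mem _ hσ'⟩
    have h3 : R σ = R g * (h * ρ ⟨_, hfrob_mem _ hσ'⟩ * h⁻¹) * (R g)⁻¹ := by
      rw [map_mul, map_mul, map_inv] at h2
      rw [← h2]
      group
    rw [h3, charpoly_conj', charpoly_conj', hy]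

theorem two_extN {k : Type} [Field k] [CharZero k] [TopologicalSpace k] [IsTopologicalRing k]
    [T2Space k] (a : HeightOneSpectrum (𝓞 F) → k[X]) (L₀ : Ext F) (hL₀ : FiniteDimensional F L₀)
    (ρ₀ : GE L₀ →* GL (Fin n) k) (hρ₀ : Continuous ρ₀) (hss₀ : IsSemisimpleG ρ₀)
    (Z₀ : Finset (HeightOneSpectrum (𝓞 F))) (hc₀ : ∀ v ∉ Z₀, MatchDegreeOneF ρ₀ v (a v)) :
    ∃ M : Ext F, FiniteDimensional F M ∧ ∀ L₁ : Ext F, FiniteDimensional F L₁ → L₁ ⊓ M = ⊥ →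
      ∀ ρ₁ : GE L₁ →* GL (Fin n) k, Continuous ρ₁ → IsSemisimpleG ρ₁ →
      ∀ Z₁ : Finset (HeightOneSpectrum (𝓞 F)), (∀ v ∉ Z₁, MatchDegreeOneF ρ₁ v (a v)) →
      ∃ R : GF F →* GL (Fin n) k, Continuous R ∧ IsSemisimpleG R ∧
        (∃ h : GL (Fin n) k, ∀ g : GE L₀, R g = h * ρ₀ g * h⁻¹) ∧
        (∃ h : GL (Fin n) k, ∀ g : GE L₁, R g = h * ρ₁ g * h⁻¹) ∧
        (∀ v ∉ Z₀, HasLocalDegreeOneF L₀ v → MatchF R v (a v)) ∧
        ∀ v ∉ Z₁, HasLocalDegreeOneF L₁ v → MatchF R v (a v) := by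
  classical
  obtain ⟨M, hM, hMo, key⟩ := two_subgroups (GE L₀) (fixing_openF L₀ hL₀) ρ₀ hss₀
  have hMc : IsClosed (M : Set (GF F)) := Subgroup.isClosed_of_isOpen M hMo
  have e1 : (IntermediateField.fixedField M).fixingSubgroup = M :=
    InfiniteGalois.fixingSubgroup_fixedField ⟨M, hMc⟩
  have hfd : FiniteDimensional F (IntermediateField.fixedField M : Ext F) := by
    rw [← InfiniteGalois.isOpen_iff_finite, e1]
    exact hMo
  refine ⟨IntermediateField.fixedField M, hfd, fun L₁ hL₁ hi ρ₁ hρ₁ hss₁ Z₁ hc₁ => ?_⟩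
  obtain ⟨R, hRss, ⟨h₀, hh₀⟩, h₁, hh₁⟩ := key (GE L₁) (fixing_openF L₁ hL₁) (sup_of_inf M hM hMo hi) ρ₁ hss₁
    (traces_interG hL₀ hL₁ (Z₀ ∪ Z₁) ρ₀ ρ₁ hρ₀ hρ₁ (by
      intro v hv P hP x h1 h2 hx
      rw [Finset.mem_union, not_or] at hv
      rw [Matrix.trace_eq_neg_charpoly_nextCoeff, Matrix.trace_eq_neg_charpoly_nextCoeff,
        (hc₀ v hv.1 P hP ⟨x, h1⟩ hx).2, (hc₁ v hv.2 P hP ⟨x, h2⟩ hx).2]))
  exact ⟨R, continuous_of_restrict hL₀ ρ₀ hρ₀ R h₀ hh₀, hRss, ⟨h₀, hh₀⟩, ⟨h₁, hh₁⟩,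
    fun v hv hloc => match_of_restrict ρ₀ R h₀ hh₀ v _ (hc₀ v hv) hloc,
    fun v hv hloc => match_of_restrict ρ₁ R h₁ hh₁ v _ (hc₁ v hv) hloc⟩

theorem two_extN_main (l : ℕ) [Fact l.Prime] (Z : Set (HeightOneSpectrum (𝓞 F))) (hZ : Z.Finite)
    (a : HeightOneSpectrum (𝓞 F) → (PadicAlgCl l)[X]) (L₀ : Ext F) (hL₀ : FiniteDimensional F L₀)
    (ρ₀ : GE L₀ →* GL (Fin n) (PadicAlgCl l)) (hρ₀ : Continuous ρ₀) (hss₀ : IsSemisimpleG ρ₀)
    (S₀ : Set (HeightOneSpectrum (𝓞 F))) (hS₀ : S₀.Finite)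
    (hc₀ : ∀ v ∉ Z ∪ S₀, (l : 𝓞 F) ∉ v.asIdeal → MatchDegreeOneF ρ₀ v (a v)) :
    ∃ M : Ext F, FiniteDimensional F M ∧ ∀ L₁ : Ext F, FiniteDimensional F L₁ → L₁ ⊓ M = ⊥ →
      ∀ ρ₁ : GE L₁ →* GL (Fin n) (PadicAlgCl l), Continuous ρ₁ → IsSemisimpleG ρ₁ →
      ∀ S₁ : Set (HeightOneSpectrum (𝓞 F)), S₁.Finite →
      (∀ v ∉ Z ∪ S₁, (l : 𝓞 F) ∉ v.asIdeal → MatchDegreeOneF ρ₁ v (a v)) →
      ∃ ρ : GF F →* GL (Fin n) (PadicAlgCl l), Continuous ρ ∧ IsSemisimpleG ρ ∧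
        (∃ h : GL (Fin n) (PadicAlgCl l), ∀ g : GE L₀, ρ g = h * ρ₀ g * h⁻¹) ∧
        (∃ h : GL (Fin n) (PadicAlgCl l), ∀ g : GE L₁, ρ g = h * ρ₁ g * h⁻¹) ∧
        (IrrN ρ₀ ∨ IrrN ρ₁ → IrrN ρ) ∧
        ∀ v ∉ Z, (l : 𝓞 F) ∉ v.asIdeal →
          (v ∉ S₀ ∧ HasLocalDegreeOneF L₀ v) ∨ (v ∉ S₁ ∧ HasLocalDegreeOneF L₁ v) →
          MatchF ρ v (a v) := by
  classical
  have hl := finite_above (F := F) l (Fact.out : l.Prime).ne_zero
  obtain ⟨M, hM, key⟩ := two_extN a L₀ hL₀ ρ₀ hρ₀ hss₀ (hZ.toFinset ∪ hl.toFinset ∪ hS₀.toFinset) (by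
    intro v hv
    simp only [Finset.mem_union, Set.Finite.mem_toFinset, Set.mem_setOf_eq, not_or] at hv
    exact hc₀ v (fun h => h.elim hv.1.1 hv.2) hv.1.2)
  refine ⟨M, hM, fun L₁ hL₁ hi ρ₁ hρ₁ hss₁ S₁ hS₁ hc₁ => ?_⟩
  obtain ⟨R, hR1, hR2, ⟨h₀, hh₀⟩, ⟨h₁, hh₁⟩, h5, h6⟩ := key L₁ hL₁ hi ρ₁ hρ₁ hss₁
    (hZ.toFinset ∪ hl.toFinset ∪ hS₁.toFinset) (by
    intro v hv
    simp only [Finset.mem_union, Set.Finite.mem_toFinset, Set.mem_setOf_eq, not_or] at hv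
    exact hc₁ v (fun h => h.elim hv.1.1 hv.2) hv.1.2)
  refine ⟨R, hR1, hR2, ⟨h₀, hh₀⟩, ⟨h₁, hh₁⟩, ?_, ?_⟩
  · rintro (h | h)
    · exact irr_of_restrictN ρ₀ R h₀ hh₀ h
    · exact irr_of_restrictN ρ₁ R h₁ hh₁ h
  · rintro v hv hvl (⟨h7, h8⟩ | ⟨h7, h8⟩)
    · refine h5 v ?_ h8
      simp only [Finset.mem_union, Set.Finite.mem_toFinset, Set.mem_setOf_eq, not_or]
      exact ⟨⟨hv, hvl⟩, h7⟩
    · refine h6 v ?_ h8
      simp only [Finset.mem_union, Set.Finite.mem_toFinset, Set.mem_setOf_eq, not_or]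
      exact ⟨⟨hv, hvl⟩, h7⟩

end Pool.Agent.V1142.PA
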