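import Pool.Agent.V1142.PA.B

/-! Two extensions suffice, for `GL_n`, with semisimple Frobenius elements. -/

set_option autoImplicit false
set_option linter.all false

namespace Pool.Agent.V1142.PA

open NumberField Filter Topology IsDedekindDomain Pool.Agent.Y800

variable {F : Type} [Field F] [NumberField F] {n : ℕ}

theorem two_extC {k : Type} [Field k] [CharZero k] [TopologicalSpace k] [IsTopologicalRing k]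
    [T2Space k] (a : HeightOneSpectrum (𝓞 F) → Fin n → k) (L₀ : Ext F) (hL₀ : FiniteDimensional F L₀)
    (ρ₀ : GE L₀ →* GL (Fin n) k) (hρ₀ : Continuous ρ₀) (hss₀ : IsSemisimpleG ρ₀)
    (Z₀ : Finset (HeightOneSpectrum (𝓞 F))) (hc₀ : ∀ v ∉ Z₀, CorrespondsDegreeOneF ρ₀ v (a v)) :
    ∃ M : Ext F, FiniteDimensional F M ∧ ∀ L₁ : Ext F, FiniteDimensional F L₁ → L₁ ⊓ M = ⊥ →
      ∀ ρ₁ : GE L₁ →* GL (Fin n) k, Continuous ρ₁ → IsSemisimpleG ρ₁ →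
      ∀ Z₁ : Finset (HeightOneSpectrum (𝓞 F)), (∀ v ∉ Z₁, CorrespondsDegreeOneF ρ₁ v (a v)) →
      ∃ R : GF F →* GL (Fin n) k, Continuous R ∧ IsSemisimpleG R ∧
        (∃ h : GL (Fin n) k, ∀ g : GE L₀, R g = h * ρ₀ g * h⁻¹) ∧
        (∃ h : GL (Fin n) k, ∀ g : GE L₁, R g = h * ρ₁ g * h⁻¹) ∧
        (∀ v ∉ Z₀, HasLocalDegreeOneF L₀ v → CorrespondsF R v (a v)) ∧
        ∀ v ∉ Z₁, HasLocalDegreeOneF L₁ v → CorrespondsF R v (a v) := by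
  classical
  obtain ⟨M, hM, hMo, key⟩ := two_subgroups (GE L₀) (fixing_openF L₀ hL₀) ρ₀ hss₀
  have hMc : IsClosed (M : Set (GF F)) := Subgroup.isClosed_of_isOpen M hMo
  have e1 : (IntermediateField.fixedField M).fixingSubgroup = M :=
    InfiniteGalois.fixingSubgroup_fixedField ⟨M, hMc⟩
  have hfd : FiniteDimensional F (IntermediateField.fixedField M : Ext F) := by
    rw [← InfiniteGalois.isOpen_iff_finite, e1]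
    exact hMo
  refine ⟨IntermediateField.fixedField M, hfd, fun L₁ hL₁ hi ρ₁ hρ₁ hss₁ Z₁ hc₁ => ?_⟩
  obtain ⟨R, hRss, ⟨h₀, hh₀⟩, h₁, hh₁⟩ := key (GE L₁) (fixing_openF L₁ hL₁) (sup_of_inf M hM hMo hi) ρ₁ hss₁
    (fun x h1 h2 => traces_inter hL₀ hL₁ (Z₀ ∪ Z₁) a ρ₀ ρ₁ hρ₀ hρ₁
      (fun v hv => hc₀ v fun h => hv (Finset.mem_union_left _ h))
      (fun v hv => hc₁ v fun h => hv (Finset.mem_union_right _ h)) x h1 h2)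
  exact ⟨R, continuous_of_restrict hL₀ ρ₀ hρ₀ R h₀ hh₀, hRss, ⟨h₀, hh₀⟩, ⟨h₁, hh₁⟩,
    fun v hv hloc => corresponds_of_restrict ρ₀ R h₀ hh₀ v _ (hc₀ v hv) hloc,
    fun v hv hloc => corresponds_of_restrict ρ₁ R h₁ hh₁ v _ (hc₁ v hv) hloc⟩

theorem two_extC_main (l : ℕ) [Fact l.Prime] (Z : Set (HeightOneSpectrum (𝓞 F))) (hZ : Z.Finite)
    (a : HeightOneSpectrum (𝓞 F) → Fin n → PadicAlgCl l) (L₀ : Ext F) (hL₀ : FiniteDimensional F L₀)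
    (ρ₀ : GE L₀ →* GL (Fin n) (PadicAlgCl l)) (hρ₀ : Continuous ρ₀) (hss₀ : IsSemisimpleG ρ₀)
    (S₀ : Set (HeightOneSpectrum (𝓞 F))) (hS₀ : S₀.Finite)
    (hc₀ : ∀ v ∉ Z ∪ S₀, (l : 𝓞 F) ∉ v.asIdeal → CorrespondsDegreeOneF ρ₀ v (a v)) :
    ∃ M : Ext F, FiniteDimensional F M ∧ ∀ L₁ : Ext F, FiniteDimensional F L₁ → L₁ ⊓ M = ⊥ →
      ∀ ρ₁ : GE L₁ →* GL (Fin n) (PadicAlgCl l), Continuous ρ₁ → IsSemisimpleG ρ₁ →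
      ∀ S₁ : Set (HeightOneSpectrum (𝓞 F)), S₁.Finite →
      (∀ v ∉ Z ∪ S₁, (l : 𝓞 F) ∉ v.asIdeal → CorrespondsDegreeOneF ρ₁ v (a v)) →
      ∃ ρ : GF F →* GL (Fin n) (PadicAlgCl l), Continuous ρ ∧ IsSemisimpleG ρ ∧
        (∃ h : GL (Fin n) (PadicAlgCl l), ∀ g : GE L₀, ρ g = h * ρ₀ g * h⁻¹) ∧
        (∃ h : GL (Fin n) (PadicAlgCl l), ∀ g : GE L₁, ρ g = h * ρ₁ g * h⁻¹) ∧
        (IrrN ρ₀ ∨ IrrN ρ₁ → IrrN ρ) ∧
        ∀ v ∉ Z, (l : 𝓞 F) ∉ v.asIdeal →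
          (v ∉ S₀ ∧ HasLocalDegreeOneF L₀ v) ∨ (v ∉ S₁ ∧ HasLocalDegreeOneF L₁ v) →
          CorrespondsF ρ v (a v) := by
  classical
  have hl := finite_above (F := F) l (Fact.out : l.Prime).ne_zero
  obtain ⟨M, hM, key⟩ := two_extC a L₀ hL₀ ρ₀ hρ₀ hss₀ (hZ.toFinset ∪ hl.toFinset ∪ hS₀.toFinset) (by
    intro v hv
    simp only [Finset.mem_union, Set.Finite.mem_toFinset, Set.mem_setOf_eq, not_or] at hv
    exact hc₀ v (fun h => h.elim hv.1.1 hv.2) hv.1.2)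
  refine ⟨M, hM, fun L₁ hL₁ hi ρ₁ hρ₁ hss₁ S₁ hS₁ hc₁ => ?_⟩
  obtain ⟨R, hR1, hR2, ⟨h₀, hh₀⟩, ⟨h₁, hh₁⟩, h5, h6⟩ := key L₁ hL₁ hi ρ₁ hρ₁ hss₁
    (hZ.toFinset ∪ hl.toFinset ∪ hS₁.toFinset) (by
    intro v hv
    simp only [Finset.mem_union, Set.Finite.mem_toFinset, Set.mem_setOf_eq, not_or] at hv
    exact hc₁ v (fun h => h.elim hv.1.1 hv.2) hv.1.2)
  refine ⟨R, hR1, hR2, ⟨h₀, hh₀⟩, ⟨h₁, hh₁⟩, ?_, ?_⟩
  · rintro (h | h)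
    · exact irr_of_restrictN ρ₀ R h₀ hh₀ h
    · exact irr_of_restrictN ρ₁ R h₁ hh₁ h
  · rintro v hv hvl (⟨h7, h8⟩ | ⟨h7, h8⟩)
    · refine h5 v ?_ h8
      simp only [Finset.mem_union, Set.Finite.mem_toFinset, Set.mem_setOf_eq, not_or]
      exact ⟨⟨hv, hvl⟩, h7⟩
    · refine h6 v ?_ h8
      simp only [Finset.mem_union, Set.Finite.mem_toFinset, Set.mem_setOf_eq, not_or]
      exact ⟨⟨hv, hvl⟩, h7⟩

end Pool.Agent.V1142.PA
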