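import Mathlib
import Pool.Agent.Y800.Lin

/-! Semisimple representations in characteristic zero are determined by their traces. -/

set_option autoImplicit false
set_option linter.all false

namespace Pool.Agent.V1142.PA

open Polynomial

section mods

variable {k : Type} [Field k] {A : Type} [Ring A] [Algebra k A]

/-- the trace of the action of `a` -/
noncomputable def tr (k : Type) [Field k] {A : Type} [Ring A] [Algebra k A] (V : Type) [AddCommGroup V]
    [Module k V] [Module A V] [IsScalarTower k A V] (a : A) : k :=
  LinearMap.trace k V (Algebra.lsmul k k V a)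

variable {V W : Type} [AddCommGroup V] [Module k V] [Module A V] [IsScalarTower k A V]
  [FiniteDimensional k V] [AddCommGroup W] [Module k W] [Module A W] [IsScalarTower k A W]
  [FiniteDimensional k W]

theorem tr_equiv (e : V ≃ₗ[A] W) (a : A) : tr k V a = tr k W a := by
  unfold tr
  rw [← LinearMap.trace_conj' (Algebra.lsmul k k V a) (e.restrictScalars k)]
  congr 1
  ext w
  simp [LinearEquiv.conj_apply]

theorem tr_prod (a : A) : tr k (V × W) a = tr k V a + tr k W a := by
  unfold tr
  rw [← LinearMap.trace_prodMap']
  congr 1

theorem tr_one : tr k V (1 : A) = (Module.finrank k V : k) := by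
  unfold tr
  rw [map_one (Algebra.lsmul k k V), LinearMap.trace_one]

theorem nilp [CharZero k] (y : Module.End k V)
    (h : ∀ f : k[X], LinearMap.trace k V (aeval y f * y) = 0) : IsNilpotent y := by
  classical
  let b := Module.finBasis k V
  have h1 : IsNilpotent (LinearMap.toMatrixAlgEquiv b y) := by
    refine Pool.Agent.Y800.nilpotent_of_trace (fun m hm _ => by exact_mod_cast (by omega : m ≠ 0)) ?_
    intro f
    rw [Polynomial.aeval_algHom_apply (LinearMap.toMatrixAlgEquiv b) y f]
    rw [← map_mul]
    have := h f
    rw [LinearMap.trace_eq_matrix_trace k b] at this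
    exact this
  exact (IsNilpotent.map_iff (LinearMap.toMatrixAlgEquiv b).injective).1 h1

theorem nd [CharZero k] [IsSemisimpleModule A V] (a : A) (h : ∀ b : A, tr k V (b * a) = 0) (v : V) :
    a • v = 0 := by
  have hv : v ∈ (⨆ S : {S : Submodule A V // IsSimpleModule A S}, S.1) := by
    have := IsSemisimpleModule.sSup_simples_eq_top A V
    rw [sSup_eq_iSup'] at this
    have h2 : v ∈ (⊤ : Submodule A V) := trivial
    rw [← this] at h2
    exact h2
  refine Submodule.iSup_induction _ (motive := fun v => a • v = 0) hv ?_ (smul_zero a) ?_
  · rintro ⟨S, hS⟩ x hx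
    by_contra hne
    have h1 : (⟨a • x, S.smul_mem a hx⟩ : S) ≠ 0 := fun h => hne (congrArg Subtype.val h)
    obtain ⟨b, hb⟩ := IsSimpleModule.toSpanSingleton_surjective A h1 ⟨x, hx⟩
    have hb' : b • (a • x) = x := congrArg Subtype.val hb
    have hn : IsNilpotent (Algebra.lsmul k k V (b * a)) := by
      refine nilp _ fun f => ?_
      have h2 := h (aeval (b * a) f * b)
      unfold tr at h2
      rw [mul_assoc, map_mul, ← Polynomial.aeval_algHom_apply] at h2
      exact h2
    obtain ⟨m, hm⟩ := hn
    have h3 : ∀ m : ℕ, (Algebra.lsmul k k V (b * a) ^ m) x = x := by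
      intro m
      induction m with
      | zero => rfl
      | succ m ih =>
        rw [pow_succ, Module.End.mul_apply]
        have h4 : (Algebra.lsmul k k V (b * a)) x = x := by
          show (b * a) • x = x
          rw [mul_smul, hb']
        rw [h4, ih]
    have h5 := h3 m
    rw [hm] at h5
    apply hne
    rw [← h5]
    simp
  · intro x y hx hy
    rw [smul_add, hx, hy, add_zero]

theorem exists_hom [CharZero k] [IsSemisimpleModule A V] [IsSemisimpleModule A W]
    (h : ∀ a : A, tr k V a = tr k W a) (S : Submodule A V) [IsSimpleModule A S] :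
    ∃ f : S →ₗ[A] W, Function.Injective f := by
  classical
  have : Nontrivial S := IsSimpleModule.nontrivial A S
  obtain ⟨s, hs⟩ := exists_ne (0 : S)
  let b := Module.finBasis k W
  let x : Fin (Module.finrank k W) → W := fun i => b i
  let f : A →ₗ[A] (Fin (Module.finrank k W) → W) := LinearMap.toSpanSingleton A _ x
  let g : A →ₗ[A] S := LinearMap.toSpanSingleton A _ s
  have hg : Function.Surjective g := IsSimpleModule.toSpanSingleton_surjective A hs
  have hker : LinearMap.ker f ≤ LinearMap.ker g := by
    intro a ha
    rw [LinearMap.mem_ker] at ha ⊢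
    have h1 : ∀ i, a • b i = 0 := fun i => congrFun ha i
    have h2 : (Algebra.lsmul k k W a) = 0 := by
      apply b.ext
      intro i
      show a • b i = 0
      exact h1 i
    have h3 : ∀ c : A, tr k V (c * a) = 0 := by
      intro c
      rw [h]
      unfold tr
      rw [map_mul, h2, mul_zero, map_zero]
    have h4 := nd (k := k) a h3 (s : V)
    exact Subtype.ext h4
  let q : LinearMap.range f →ₗ[A] S :=
    ((LinearMap.ker f).liftQ g hker).comp f.quotKerEquivRange.symm.toLinearMap
  have hq : Function.Surjective q := by
    intro y
    obtain ⟨a, rfl⟩ := hg y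
    refine ⟨⟨f a, a, rfl⟩, ?_⟩
    show (LinearMap.ker f).liftQ g hker (f.quotKerEquivRange.symm ⟨f a, _⟩) = g a
    rw [LinearMap.quotKerEquivRange_symm_apply_image]
    rfl
  obtain ⟨C, hC⟩ := exists_isCompl (LinearMap.ker q)
  let e1 : S ≃ₗ[A] C := (q.quotKerEquivOfSurjective hq).symm.trans
    (Submodule.quotientEquivOfIsCompl _ _ hC)
  let j : S →ₗ[A] (Fin (Module.finrank k W) → W) :=
    (LinearMap.range f).subtype.comp (C.subtype.comp e1.toLinearMap)
  have hj : Function.Injective j := by
    show Function.Injective ((LinearMap.range f).subtype ∘ (C.subtype ∘ e1))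
    exact (Submodule.injective_subtype _).comp ((Submodule.injective_subtype _).comp e1.injective)
  have h6 : j s ≠ 0 := fun h => hs (hj (h.trans (map_zero j).symm))
  obtain ⟨i, hi⟩ := Function.ne_iff.1 h6
  refine ⟨(LinearMap.proj i).comp j, ?_⟩
  rcases LinearMap.injective_or_eq_zero ((LinearMap.proj i : (Fin (Module.finrank k W) → W) →ₗ[A] W).comp j) with h7 | h7
  · exact h7
  · exact absurd (congrArg (fun φ => φ s) h7) hi

end mods

/-- **Semisimple modules with equal traces are isomorphic.** -/
theorem iso_of_traces {k : Type} [Field k] [CharZero k] {A : Type} [Ring A] [Algebra k A] (d : ℕ) :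
    ∀ (V W : Type) [AddCommGroup V] [Module k V] [Module A V] [IsScalarTower k A V]
      [FiniteDimensional k V] [AddCommGroup W] [Module k W] [Module A W] [IsScalarTower k A W]
      [FiniteDimensional k W] [IsSemisimpleModule A V] [IsSemisimpleModule A W],
      Module.finrank k V ≤ d → (∀ a : A, tr k V a = tr k W a) → Nonempty (V ≃ₗ[A] W) := by
  induction d with
  | zero =>
    intro V W _ _ _ _ _ _ _ _ _ _ _ _ hd h
    have h1 := h 1
    rw [tr_one, tr_one] at h1
    have h2 : Module.finrank k W = 0 := by
      have : Module.finrank k V = Module.finrank k W := by exact_mod_cast h1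
      omega
    have h3 : Module.finrank k V = 0 := by omega
    have := (Module.finrank_zero_iff (R := k) (M := V)).1 h3
    have := (Module.finrank_zero_iff (R := k) (M := W)).1 h2
    exact ⟨0⟩
  | succ d ih =>
    intro V W _ _ _ _ _ _ _ _ _ _ _ _ hd h
    by_cases hV : Subsingleton V
    · have h1 := h 1
      rw [tr_one, tr_one] at h1
      have h0 : Module.finrank k V = 0 := Module.finrank_zero_of_subsingleton
      have h2 : Module.finrank k W = 0 := by
        have : Module.finrank k V = Module.finrank k W := by exact_mod_cast h1
        omega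
      have := (Module.finrank_zero_iff (R := k) (M := W)).1 h2
      exact ⟨0⟩
    · rw [not_subsingleton_iff_nontrivial] at hV
      obtain ⟨S, hS⟩ := IsSemisimpleModule.exists_simple_submodule A V
      obtain ⟨f, hf⟩ := exists_hom (k := k) h S
      obtain ⟨C, hC⟩ := exists_isCompl S
      obtain ⟨D, hD⟩ := exists_isCompl (LinearMap.range f)
      have : FiniteDimensional k S := Module.Finite.of_injective (S.subtype.restrictScalars k) (Submodule.injective_subtype _)
      have : FiniteDimensional k C := Module.Finite.of_injective (C.subtype.restrictScalars k) (Submodule.injective_subtype _)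
      have : FiniteDimensional k D := Module.Finite.of_injective (D.subtype.restrictScalars k) (Submodule.injective_subtype _)
      have : FiniteDimensional k (LinearMap.range f) := Module.Finite.of_injective ((LinearMap.range f).subtype.restrictScalars k) (Submodule.injective_subtype _)
      let e1 : (S × C) ≃ₗ[A] V := Submodule.prodEquivOfIsCompl S C hC
      let e2 : (LinearMap.range f × D) ≃ₗ[A] W := Submodule.prodEquivOfIsCompl _ D hD
      let e3 : S ≃ₗ[A] LinearMap.range f := LinearEquiv.ofInjective f hf
      have ht : ∀ a : A, tr k C a = tr k D a := by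
        intro a
        have h1 := h a
        rw [← tr_equiv e1, ← tr_equiv e2, tr_prod, tr_prod, tr_equiv e3] at h1
        exact add_left_cancel h1
      have hdim : Module.finrank k C ≤ d := by
        have h1 := (e1.restrictScalars k).finrank_eq
        rw [Module.finrank_prod] at h1
        have : Nontrivial S := IsSimpleModule.nontrivial A S
        have h2 : 0 < Module.finrank k S := Module.finrank_pos
        omega
      obtain ⟨e4⟩ := ih C D hdim ht
      exact ⟨e1.symm.trans ((LinearEquiv.prodCongr e3 e4).trans e2)⟩

end Pool.Agent.V1142.PA
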