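import Pool.Agent.V1142.PA.Span

/-! The patching theorem for profinite groups. -/

set_option autoImplicit false
set_option linter.all false

namespace Pool.Agent.V1142.PA

open Pool.Agent.Y800

variable {k : Type} [Field k] {n : ℕ} {G : Type} [Group G]

theorem cmem {N : Subgroup G} [hN : N.Normal] (g : G) (h : N) : g⁻¹ * h * g ∈ N := by
  have := hN.conj_mem _ h.2 g⁻¹
  rwa [inv_inv] at this

/-- all conjugates at the same time -/
noncomputable def Sg {N : Subgroup G} [N.Normal] (σ : N →* GL (Fin n) k) :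
    N →* (G ⧸ N → Matrix (Fin n) (Fin n) k) where
  toFun h q := (σ ⟨(q.out)⁻¹ * h * q.out, cmem _ h⟩ : GL (Fin n) k)
  map_one' := by
    funext q
    have : (⟨(q.out)⁻¹ * ((1 : N) : G) * q.out, cmem _ 1⟩ : N) = 1 := by
      apply Subtype.ext; simp
    rw [this, map_one]; rfl
  map_mul' := by
    intro a b
    funext q
    have : (⟨(q.out)⁻¹ * ((a * b : N) : G) * q.out, cmem _ _⟩ : N) =
        ⟨(q.out)⁻¹ * a * q.out, cmem _ a⟩ * ⟨(q.out)⁻¹ * b * q.out, cmem _ b⟩ := by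
      apply Subtype.ext; push_cast; group
    rw [this, map_mul]; rfl

theorem exists_L {N : Subgroup G} [N.Normal] (σ : N →* GL (Fin n) k) (g : G) :
    ∃ L : (G ⧸ N → Matrix (Fin n) (Fin n) k) →ₗ[k] Matrix (Fin n) (Fin n) k,
      ∀ (h : N) (hc : g⁻¹ * (h : G) * g ∈ N), L (Sg σ h) = (σ ⟨g⁻¹ * h * g, hc⟩ : GL (Fin n) k) := by
  have hn : ((g : G ⧸ N).out)⁻¹ * g ∈ N := by
    rw [← QuotientGroup.eq, QuotientGroup.out_eq']
  set m : N := ⟨((g : G ⧸ N).out)⁻¹ * g, hn⟩ with hm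
  refine ⟨(LinearMap.mulLeft k ((σ m)⁻¹ : GL (Fin n) k).val) ∘ₗ
    (LinearMap.mulRight k (σ m : GL (Fin n) k).val) ∘ₗ LinearMap.proj (g : G ⧸ N), fun h hc => ?_⟩
  show ((σ m)⁻¹ : GL (Fin n) k).val * ((σ ⟨((g : G ⧸ N).out)⁻¹ * h * (g : G ⧸ N).out, cmem _ h⟩ : GL (Fin n) k).val *
    (σ m : GL (Fin n) k).val) = _
  rw [← Units.val_mul, ← Units.val_mul, ← map_mul, ← map_inv, ← map_mul]
  congr 2
  apply Subtype.ext
  push_cast
  rw [hm]
  group

variable [TopologicalSpace G] [IsTopologicalGroup G] [CompactSpace G] [TotallyDisconnectedSpace G]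

theorem fin_index {N : Subgroup G} (h : IsOpen (N : Set G)) : N.FiniteIndex := by
  have := Subgroup.quotient_finite_of_isOpen _ h
  exact Subgroup.finiteIndex_of_finite_quotient

/-- semisimplicity of restrictions -/
theorem ss_incl [CharZero k] {H₁ H₂ : Subgroup G} (h : H₁ ≤ H₂) (ho : IsOpen (H₁ : Set G))
    (τ : H₂ →* GL (Fin n) k) (hτ : IsSemisimpleRep τ) :
    IsSemisimpleRep (τ.comp (Subgroup.inclusion h)) := by
  have := fin_index ho
  have : (H₁.subgroupOf H₂).FiniteIndex := inferInstance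
  refine ss_congr ?_ ?_ (restrict_ss τ (H₁.subgroupOf H₂) hτ)
  · intro g
    exact ⟨⟨g.1.1, g.2⟩, rfl⟩
  · intro g
    exact ⟨⟨⟨g.1, h g.2⟩, g.2⟩, rfl⟩

/-- the span lemma -/
theorem mem_Sv {B : Type} [Ring B] [Algebra k B] {H : Subgroup G} (τ : H →* B) {M : Subgroup G}
    (hMo : IsOpen (M : Set G)) (hg : Good k τ M) {W : Subgroup G} (hW : IsOpen (W : Set G))
    {w m : H} (hw : (w : G) ∈ W) (hm : (m : G) ∈ M) : τ (w * m) ∈ Sv (k := k) τ W := by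
  obtain ⟨M', h1, h2, h3⟩ := exists_normal (M ⊓ W) (hMo.inter hW)
  have h4 : τ m ∈ Sv (k := k) τ M' := hg M' h1 h2 (h3.trans inf_le_left) (Submodule.subset_span ⟨m, hm, rfl⟩)
  rw [map_mul]
  generalize τ m = b at h4
  unfold Sv at h4
  induction h4 using Submodule.span_induction with
  | mem x hx =>
    obtain ⟨y, hy, rfl⟩ := hx
    exact Submodule.subset_span ⟨w * y, W.mul_mem hw (h3 hy).2, map_mul τ w y⟩
  | zero => rw [mul_zero]; exact zero_mem _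
  | add x y _ _ hx hy => rw [mul_add]; exact add_mem hx hy
  | smul c x _ hx => rw [mul_smul_comm]; exact Submodule.smul_mem _ _ hx

/-- Patching two representations. -/
theorem two [CharZero k] {N U : Subgroup G} [hN : N.Normal] (hNo : IsOpen (N : Set G))
    (hUo : IsOpen (U : Set G)) (σ : N →* GL (Fin n) k) (hσ : IsSemisimpleRep σ)
    (τ' : U →* GL (Fin n) k) (hτ' : IsSemisimpleRep τ')
    (htr : ∀ (x : G) (h1 : x ∈ N) (h2 : x ∈ U), (σ ⟨x, h1⟩ : Matrix (Fin n) (Fin n) k).trace =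
      (τ' ⟨x, h2⟩ : Matrix (Fin n) (Fin n) k).trace)
    {M : Subgroup G} (hMo : IsOpen (M : Set G)) (hMN : M ≤ N) (hg : Good k (Sg σ) M)
    (hUM : ∀ x : G, ∃ u ∈ U, ∃ m ∈ M, x = u * m) :
    ∃ R : G →* GL (Fin n) k, IsSemisimpleRep R ∧ (∀ h : N, R h = σ h) ∧
      ∃ P : GL (Fin n) k, ∀ u : U, R u = P * τ' u * P⁻¹ := by
  have hVo : IsOpen ((N ⊓ U : Subgroup G) : Set G) := hNo.inter hUo
  obtain ⟨P, hP⟩ := conj_of_traces (ss_incl (inf_le_right : N ⊓ U ≤ U) hVo τ' hτ')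
    (ss_incl (inf_le_left : N ⊓ U ≤ N) hVo σ hσ) (fun g => (htr g.1 g.2.1 g.2.2).symm)
  let τ : U →* GL (Fin n) k := (MulAut.conj P).toMonoidHom.comp τ'
  have hτ : ∀ u, τ u = P * τ' u * P⁻¹ := fun u => rfl
  have hag : ∀ (x : G) (h1 : x ∈ N) (h2 : x ∈ U), σ ⟨x, h1⟩ = τ ⟨x, h2⟩ := by
    intro x h1 h2
    exact hP ⟨x, h1, h2⟩
  have hconj : ∀ (u : U) (h : N) (hc : (u : G)⁻¹ * h * u ∈ N),
      σ ⟨(u : G)⁻¹ * h * u, hc⟩ = (τ u)⁻¹ * σ h * τ u := by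
    intro u h hc
    obtain ⟨L1, hL1⟩ := exists_L σ (u : G)
    obtain ⟨L0, hL0⟩ := exists_L σ (1 : G)
    have hL0' : ∀ h : N, L0 (Sg σ h) = (σ h : GL (Fin n) k) := by
      intro h
      rw [hL0 h (cmem _ h)]
      congr 2
      apply Subtype.ext
      simp
    let D : (G ⧸ N → Matrix (Fin n) (Fin n) k) →ₗ[k] Matrix (Fin n) (Fin n) k :=
      L1 - (LinearMap.mulLeft k ((τ u)⁻¹ : GL (Fin n) k).val) ∘ₗ
        (LinearMap.mulRight k (τ u : GL (Fin n) k).val) ∘ₗ L0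
    have hD : ∀ h : N, D (Sg σ h) = (σ ⟨(u : G)⁻¹ * h * u, cmem _ h⟩ : GL (Fin n) k).val -
        ((τ u)⁻¹ * (σ h * τ u) : GL (Fin n) k).val := by
      intro h
      show L1 (Sg σ h) - ((τ u)⁻¹ : GL (Fin n) k).val * (L0 (Sg σ h) * (τ u : GL (Fin n) k).val) = _
      rw [hL1 h (cmem _ h), hL0' h, Units.val_mul, Units.val_mul]
    have hDV : Sv (k := k) (Sg σ) U ≤ LinearMap.ker D := by
      refine Submodule.span_le.2 ?_
      rintro b ⟨v, hv, rfl⟩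
      show D (Sg σ v) = 0
      rw [hD, sub_eq_zero]
      congr 1
      have h1 : (u : G)⁻¹ * v * u ∈ U := U.mul_mem (U.mul_mem (U.inv_mem u.2) hv) u.2
      rw [hag _ (cmem _ v) h1, show σ v = τ ⟨v, hv⟩ from hag v v.2 hv, ← map_mul, ← map_inv, ← map_mul]
      congr 1
      apply Subtype.ext
      push_cast
      group
    obtain ⟨w, hw, m, hm, hwm⟩ := hUM h
    have hwN : w ∈ N := by
      have : w = h * m⁻¹ := by rw [hwm]; group
      rw [this]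
      exact N.mul_mem h.2 (N.inv_mem (hMN hm))
    have h2 : Sg σ h ∈ Sv (k := k) (Sg σ) U := by
      have h3 := mem_Sv (Sg σ) hMo hg hUo (w := ⟨w, hwN⟩) (m := ⟨m, hMN hm⟩) hw hm
      have h4 : (⟨w, hwN⟩ * ⟨m, hMN hm⟩ : N) = h := Subtype.ext hwm.symm
      rwa [h4] at h3
    have h5 : D (Sg σ h) = 0 := hDV h2
    rw [hD, sub_eq_zero] at h5
    exact (Units.ext h5).trans (mul_assoc _ _ _).symm
  obtain ⟨R, hR1, hR2⟩ := patch U N (fun x => by
    obtain ⟨u, hu, m, hm, h⟩ := hUM x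
    exact ⟨⟨u, hu⟩, ⟨m, hMN hm⟩, h⟩) σ τ hag hconj
  refine ⟨R, ?_, hR1, P, fun u => (hR2 u).trans (hτ u)⟩
  have := fin_index hNo
  refine ss_of_restrict R N ?_
  have h6 : R.comp N.subtype = σ := MonoidHom.ext hR1
  rw [h6]
  exact hσ

/-- **Patching.** -/
theorem patching [CharZero k] {I : Type} (U : I → Subgroup G) (hUo : ∀ i, IsOpen (U i : Set G))
    (ρ : ∀ i, U i →* GL (Fin n) k) (hρ : ∀ i, IsSemisimpleRep (ρ i))
    (htr : ∀ (i j : I) (x : G) (h1 : x ∈ U i) (h2 : x ∈ U j),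
      (ρ i ⟨x, h1⟩ : Matrix (Fin n) (Fin n) k).trace = (ρ j ⟨x, h2⟩ : Matrix (Fin n) (Fin n) k).trace)
    (hfam : ∀ M : Subgroup G, M.Normal → IsOpen (M : Set G) → ∃ i, ∀ x : G, ∃ u ∈ U i, ∃ m ∈ M, x = u * m) :
    ∃ R : G →* GL (Fin n) k, IsSemisimpleRep R ∧
      ∀ i, ∃ P : GL (Fin n) k, ∀ u : U i, R u = P * ρ i u * P⁻¹ := by
  classical
  obtain ⟨i₀, -⟩ := hfam ⊤ inferInstance isOpen_univ
  obtain ⟨N, hN, hNo, hNU⟩ := exists_normal (U i₀) (hUo i₀)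
  have hfinN := Subgroup.quotient_finite_of_isOpen _ hNo
  have := Fintype.ofFinite (G ⧸ N)
  let σ : N →* GL (Fin n) k := (ρ i₀).comp (Subgroup.inclusion hNU)
  have hσ : IsSemisimpleRep σ := ss_incl hNU hNo (ρ i₀) (hρ i₀)
  have hσtr : ∀ (i : I) (x : G) (h1 : x ∈ N) (h2 : x ∈ U i), (σ ⟨x, h1⟩ : Matrix (Fin n) (Fin n) k).trace =
      (ρ i ⟨x, h2⟩ : Matrix (Fin n) (Fin n) k).trace := fun i x h1 h2 => htr i₀ i x (hNU h1) h2
  obtain ⟨M, hM, hMo, hMN, hg⟩ := exists_good (k := k) (Sg σ) N hN hNo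
  obtain ⟨L0, hL0⟩ := exists_L σ (1 : G)
  have hL0' : ∀ h : N, L0 (Sg σ h) = (σ h : GL (Fin n) k) := by
    intro h
    rw [hL0 h (cmem _ h)]
    congr 2
    apply Subtype.ext
    simp
  have trc : ∀ (P g : GL (Fin n) k), ((P * g * P⁻¹ : GL (Fin n) k) : Matrix (Fin n) (Fin n) k).trace =
      (g : Matrix (Fin n) (Fin n) k).trace := by
    intro P g
    rw [Units.val_mul, Matrix.trace_mul_comm, Units.val_mul, ← mul_assoc, ← Units.val_mul, inv_mul_cancel,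
      Units.val_one, one_mul]
  have key : ∀ j, (∀ x : G, ∃ u ∈ U j, ∃ m ∈ M, x = u * m) → ∃ R : G →* GL (Fin n) k, IsSemisimpleRep R ∧
      (∀ h : N, R h = σ h) ∧ ∃ P : GL (Fin n) k, ∀ u : U j, R u = P * ρ j u * P⁻¹ :=
    fun j hj => two hNo (hUo j) σ hσ (ρ j) (hρ j) (hσtr j) hMo hMN hg hj
  obtain ⟨j, hj⟩ := hfam M hM hMo
  obtain ⟨R, hRss, hRN, P, hP⟩ := key j hj
  have hRj : ∀ (x : G) (h : x ∈ U j), (R x : Matrix (Fin n) (Fin n) k).trace =
      (ρ j ⟨x, h⟩ : Matrix (Fin n) (Fin n) k).trace := by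
    intro x h
    rw [show R x = P * ρ j ⟨x, h⟩ * P⁻¹ from hP ⟨x, h⟩, trc]
  obtain ⟨Mj, hMj, hMjo, hMjle⟩ := exists_normal (M ⊓ U j) (hMo.inter (hUo j))
  -- other indices
  have step2 : ∀ l, (∀ x : G, ∃ u ∈ U l, ∃ m ∈ Mj, x = u * m) → ∀ (x : G) (h : x ∈ U l),
      (R x : Matrix (Fin n) (Fin n) k).trace = (ρ l ⟨x, h⟩ : Matrix (Fin n) (Fin n) k).trace := by
    intro l hl
    obtain ⟨R', hR'ss, hR'N, P', hP'⟩ := key l (fun x => by
      obtain ⟨u, hu, m, hm, h⟩ := hl x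
      exact ⟨u, hu, m, (hMjle hm).1, h⟩)
    have hR'l : ∀ (x : G) (h : x ∈ U l), (R' x : Matrix (Fin n) (Fin n) k).trace =
        (ρ l ⟨x, h⟩ : Matrix (Fin n) (Fin n) k).trace := by
      intro x h
      rw [show R' x = P' * ρ l ⟨x, h⟩ * P'⁻¹ from hP' ⟨x, h⟩, trc]
    have heq : ∀ x : G, (R x : Matrix (Fin n) (Fin n) k).trace = (R' x : Matrix (Fin n) (Fin n) k).trace := by
      intro x
      obtain ⟨u, hu, m1, hm1, hx⟩ := hj x
      obtain ⟨w, hw, m2, hm2, hu'⟩ := hl u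
      have hwj : w ∈ U j := by
        have : w = u * m2⁻¹ := by rw [hu']; group
        rw [this]
        exact (U j).mul_mem hu ((U j).inv_mem (hMjle hm2).2)
      have hm : m2 * m1 ∈ M := M.mul_mem (hMjle hm2).1 hm1
      have hx' : x = w * (m2 * m1) := by rw [hx, hu']; group
      obtain ⟨M', h1, h2, h3⟩ := exists_normal (M ⊓ (U j ⊓ U l)) (hMo.inter ((hUo j).inter (hUo l)))
      have h4 : Sg σ ⟨m2 * m1, hMN hm⟩ ∈ Sv (k := k) (Sg σ) M' :=
        hg M' h1 h2 (h3.trans inf_le_left) (Submodule.subset_span ⟨⟨m2 * m1, hMN hm⟩, hm, rfl⟩)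
      let φ : (G ⧸ N → Matrix (Fin n) (Fin n) k) →ₗ[k] k :=
        (Matrix.traceLinearMap (Fin n) k k ∘ₗ LinearMap.mulLeft k (R w : Matrix (Fin n) (Fin n) k) ∘ₗ L0) -
        (Matrix.traceLinearMap (Fin n) k k ∘ₗ LinearMap.mulLeft k (R' w : Matrix (Fin n) (Fin n) k) ∘ₗ L0)
      have hφ : ∀ v : N, φ (Sg σ v) = (R (w * v) : Matrix (Fin n) (Fin n) k).trace -
          (R' (w * v) : Matrix (Fin n) (Fin n) k).trace := by
        intro v
        show ((R w : Matrix (Fin n) (Fin n) k) * L0 (Sg σ v)).trace -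
          ((R' w : Matrix (Fin n) (Fin n) k) * L0 (Sg σ v)).trace = _
        rw [hL0', map_mul, map_mul, hRN, hR'N, Units.val_mul, Units.val_mul]
      have h5 : Sv (k := k) (Sg σ) M' ≤ LinearMap.ker φ := by
        refine Submodule.span_le.2 ?_
        rintro b ⟨v, hv, rfl⟩
        show φ (Sg σ v) = 0
        have hv' := (h3 hv).2
        rw [hφ, hRj (w * v) ((U j).mul_mem hwj hv'.1), hR'l (w * v) ((U l).mul_mem hw hv'.2),
          htr j l _ _ ((U l).mul_mem hw hv'.2), sub_self]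
      have h6 : φ (Sg σ ⟨m2 * m1, hMN hm⟩) = 0 := h5 h4
      rw [hφ, sub_eq_zero] at h6
      rw [hx']
      exact h6
    intro x h
    rw [heq, hR'l x h]
  -- all indices
  refine ⟨R, hRss, fun i => ?_⟩
  let T : U i →* (Matrix (Fin n) (Fin n) k × Matrix (Fin n) (Fin n) k) :=
    ((Units.coeHom (Matrix (Fin n) (Fin n) k)).comp (R.comp (U i).subtype)).prod
      ((Units.coeHom (Matrix (Fin n) (Fin n) k)).comp (ρ i))
  obtain ⟨M₀, hM₀, hM₀o, hM₀le⟩ := exists_normal (Mj ⊓ U i) (hMjo.inter (hUo i))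
  obtain ⟨Mi, hMi, hMio, hMile, hgi⟩ := exists_good (k := k) T M₀ hM₀ hM₀o
  obtain ⟨l, hl⟩ := hfam Mi hMi hMio
  have hRl := step2 l (fun x => by
    obtain ⟨u, hu, m, hm, h⟩ := hl x
    exact ⟨u, hu, m, (hM₀le (hMile hm)).1, h⟩)
  have hRi : ∀ x : U i, (R x : Matrix (Fin n) (Fin n) k).trace = (ρ i x : Matrix (Fin n) (Fin n) k).trace := by
    intro x
    obtain ⟨w, hw, m, hm, hx⟩ := hl x
    have hmi : m ∈ U i := (hM₀le (hMile hm)).2
    have hwi : w ∈ U i := by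
      have : w = x * m⁻¹ := by rw [hx]; group
      rw [this]
      exact (U i).mul_mem x.2 ((U i).inv_mem hmi)
    have h1 := mem_Sv (k := k) T hMio hgi (hUo l) (w := ⟨w, hwi⟩) (m := ⟨m, hmi⟩) hw hm
    have h2 : (⟨w, hwi⟩ * ⟨m, hmi⟩ : U i) = x := Subtype.ext hx.symm
    rw [h2] at h1
    let φ : (Matrix (Fin n) (Fin n) k × Matrix (Fin n) (Fin n) k) →ₗ[k] k :=
      (Matrix.traceLinearMap (Fin n) k k ∘ₗ LinearMap.fst k _ _) -
      (Matrix.traceLinearMap (Fin n) k k ∘ₗ LinearMap.snd k _ _)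
    have h5 : Sv (k := k) T (U l) ≤ LinearMap.ker φ := by
      refine Submodule.span_le.2 ?_
      rintro b ⟨v, hv, rfl⟩
      show (R v : Matrix (Fin n) (Fin n) k).trace - (ρ i v : Matrix (Fin n) (Fin n) k).trace = 0
      rw [hRl v hv, htr l i v hv v.2, sub_self]
    have h6 : φ (T x) = 0 := h5 h1
    exact sub_eq_zero.1 h6
  have := fin_index (hUo i)
  obtain ⟨Q, hQ⟩ := conj_of_traces (hρ i) (restrict_ss R (U i) hRss) (fun g => (hRi g).symm)
  exact ⟨Q, hQ⟩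

end Pool.Agent.V1142.PA
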