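import Pool.Agent.V1142.PA.FDefs
import Pool.Agent.V1142.PA.Main
import Pool.Agent.W571.FM.Frob
import Pool.Agent.W528.Ord.Dens

/-! The patching theorem for Galois representations over a number field `F`. -/

set_option autoImplicit false
set_option linter.all false

namespace Pool.Agent.V1142.PA

open NumberField Filter Topology IsDedekindDomain Pool.Agent.Y800

variable {F : Type} [Field F] [NumberField F] {n : ℕ}

/-- the translate of a maximal ideal -/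
theorem exists_translateF {v : HeightOneSpectrum (𝓞 F)} {P : Ideal (OB F)} (hP : Above v P) (τ : GF F) :
    ∃ Q : Ideal (OB F), Above v Q ∧ ∀ x, x ∈ Q ↔ τ⁻¹ • x ∈ P := by
  refine ⟨P.comap (MulSemiringAction.toRingEquiv (GF F) (OB F) τ⁻¹), ⟨?_, ?_⟩, fun x => Iff.rfl⟩
  · have := hP.1
    exact Ideal.comap_isMaximal_of_surjective _ (MulSemiringAction.toRingEquiv (GF F) (OB F) τ⁻¹).surjective
  · rw [← hP.2]
    ext x
    rw [Ideal.mem_comap, Ideal.mem_comap, Ideal.mem_comap]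
    have : (MulSemiringAction.toRingEquiv (GF F) (OB F) τ⁻¹) (algebraMap (𝓞 F) (OB F) x) =
        algebraMap (𝓞 F) (OB F) x := by
      apply RingOfIntegers.ext
      show (τ⁻¹ : GF F) (algebraMap F (AlgebraicClosure F) (x : F)) = _
      rw [AlgEquiv.commutes]
      rfl
    rw [this]

theorem geom_conjF {v : HeightOneSpectrum (𝓞 F)} {P Q : Ideal (OB F)} {τ σ : GF F} (h : ∀ x, x ∈ Q ↔ τ⁻¹ • x ∈ P)
    (hσ : IsGeomFrobF v P σ) : IsGeomFrobF v Q (τ * σ * τ⁻¹) := by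
  intro x
  rw [h, smul_sub, smul_pow', smul_smul]
  have := hσ (τ⁻¹ • x)
  rw [smul_smul] at this
  rwa [show τ⁻¹ * (τ * σ * τ⁻¹) = σ * τ⁻¹ by group]

theorem geom_conjF' {v : HeightOneSpectrum (𝓞 F)} {P Q : Ideal (OB F)} {g σ : GF F} (h : ∀ x, x ∈ Q ↔ g⁻¹ • x ∈ P)
    (hσ : IsGeomFrobF v Q σ) : IsGeomFrobF v P (g⁻¹ * σ * g) := by
  intro x
  have h1 := (h _).1 (hσ (g • x))
  rw [smul_sub, smul_pow', inv_smul_smul, smul_smul, smul_smul] at h1
  exact h1

theorem geom_of_arithF {v : HeightOneSpectrum (𝓞 F)} {P : Ideal (OB F)} {σ : GF F}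
    (h : ∀ x : OB F, σ • x - x ^ Ideal.absNorm v.asIdeal ∈ P) : IsGeomFrobF v P σ⁻¹ := by
  intro x
  have := h (σ⁻¹ • x)
  rwa [smul_inv_smul] at this

/-- Chebotarev: every coset contains a conjugate of a geometric Frobenius element -/
theorem exists_frobF (U : Subgroup (GF F)) [hn : U.Normal] (hU : IsOpen (U : Set (GF F)))
    (S : Finset (HeightOneSpectrum (𝓞 F))) (g : GF F) :
    ∃ v : HeightOneSpectrum (𝓞 F), v ∉ S ∧ ∃ P, Above v P ∧ ∃ σ : GF F,
      IsGeomFrobF v P σ ∧ ∃ τ : GF F, τ * σ * τ⁻¹ * g⁻¹ ∈ U := by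
  classical
  by_contra hcon
  push Not at hcon
  haveI hfin : Finite (GF F ⧸ U) := Subgroup.quotient_finite_of_isOpen _ hU
  set C : Set (GF F) := {x | ∃ τ : GF F, τ * x⁻¹ * τ⁻¹ * g⁻¹ ∈ U} with hC
  have key := Pool.Agent.W528.Ord.chebK F U hU C (by
    rintro x ⟨τ, hτ⟩ y
    refine ⟨τ * y⁻¹, ?_⟩
    have : τ * y⁻¹ * (y * x * y⁻¹)⁻¹ * (τ * y⁻¹)⁻¹ * g⁻¹ = τ * x⁻¹ * τ⁻¹ * g⁻¹ := by group
    rwa [this]) (by
    rintro x ⟨τ, hτ⟩ u hu
    refine ⟨τ, ?_⟩
    have : τ * (x * u)⁻¹ * τ⁻¹ * g⁻¹ = (τ * u⁻¹ * τ⁻¹) * (τ * x⁻¹ * τ⁻¹ * g⁻¹) := by group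
    rw [this]
    exact U.mul_mem (hn.conj_mem _ (U.inv_mem hu) τ) hτ)
  have h0 : Tendsto (Pool.Agent.W401.Cheb.dens fun v : HeightOneSpectrum (𝓞 F) =>
      ∃ σ ∈ C, Pool.Agent.W401.Cheb.IsFrob v σ) atTop (𝓝 0) := by
    have hb : Tendsto (fun N : ℕ => (S.card : ℝ) / (Nat.primeCounting N : ℝ)) atTop (𝓝 0) :=
      Tendsto.div_atTop tendsto_const_nhds (tendsto_natCast_atTop_atTop.comp Nat.tendsto_primeCounting)
    refine squeeze_zero (fun N => ?_) (fun N => ?_) hb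
    · unfold Pool.Agent.W401.Cheb.dens
      positivity
    · unfold Pool.Agent.W401.Cheb.dens
      apply div_le_div_of_nonneg_right _ (Nat.cast_nonneg _)
      have h1 : ∀ v : {v : HeightOneSpectrum (𝓞 F) // Ideal.absNorm v.asIdeal ≤ N ∧
          ∃ σ ∈ C, Pool.Agent.W401.Cheb.IsFrob v σ}, v.1 ∈ S := by
        rintro ⟨v, hv, σ, ⟨τ, hτ⟩, Q, hQ, hQv, hσ⟩
        by_contra hvS
        exact hcon v hvS Q ⟨hQ, hQv⟩ σ⁻¹ (geom_of_arithF hσ) τ hτ
      have h2 := Nat.card_le_card_of_injective (fun v => (⟨v.1, h1 v⟩ : S))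
        (fun a b hab => Subtype.ext (congrArg (fun z => z.1) hab))
      have h3 : Nat.card S = S.card := by rw [Nat.card_eq_fintype_card, Fintype.card_coe]
      rw [h3] at h2
      exact_mod_cast h2
  have h1 := tendsto_nhds_unique key h0
  have hc : (0 : ℝ) < (Nat.card (GF F ⧸ U) : ℝ) := by exact_mod_cast Nat.card_pos
  have h2 : g⁻¹ ∈ C := ⟨1, by simp⟩
  have h3 : 1 ≤ ((QuotientGroup.mk : GF F → GF F ⧸ U) '' C).ncard :=
    (Set.ncard_pos (Set.toFinite _)).2 ⟨_, g⁻¹, h2, rfl⟩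
  have h4 : (1 : ℝ) ≤ (((QuotientGroup.mk : GF F → GF F ⧸ U) '' C).ncard : ℝ) := by exact_mod_cast h3
  have h5 : 0 < (((QuotientGroup.mk : GF F → GF F ⧸ U) '' C).ncard : ℝ) / (Nat.card (GF F ⧸ U) : ℝ) := by
    positivity
  linarith

/-- geometric Frobenius elements are dense -/
theorem dense_frobF (O : Set (GF F)) (hO : IsOpen O) {g : GF F} (hg : g ∈ O)
    (S : Finset (HeightOneSpectrum (𝓞 F))) :
    ∃ v : HeightOneSpectrum (𝓞 F), v ∉ S ∧ ∃ P, Above v P ∧ ∃ σ : GF F, IsGeomFrobF v P σ ∧ σ ∈ O := by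
  have h1 : (fun x => x * g) ⁻¹' O ∈ 𝓝 (1 : GF F) := by
    refine (continuous_mul_right g).continuousAt.preimage_mem_nhds ?_
    rw [one_mul]
    exact hO.mem_nhds hg
  obtain ⟨W, hW1, hW, hW0⟩ := mem_nhds_iff.mp h1
  obtain ⟨U, hU⟩ := ProfiniteGrp.exist_openNormalSubgroup_sub_open_nhds_of_one hW hW0
  haveI hUn : U.toSubgroup.Normal := U.isNormal'
  obtain ⟨v, hvS, P, hP, σ, hσ, τ, hτ⟩ := exists_frobF U.toSubgroup U.isOpen' S g
  obtain ⟨Q, hQ, h⟩ := exists_translateF hP τ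
  refine ⟨v, hvS, Q, hQ, τ * σ * τ⁻¹, geom_conjF h hσ, ?_⟩
  have h2 := hW1 (hU hτ)
  have h3 : τ * σ * τ⁻¹ * g⁻¹ * g ∈ O := h2
  rwa [inv_mul_cancel_right] at h3

theorem fixing_openF (K : Ext F) (hK : FiniteDimensional F K) : IsOpen (GE K : Set (GF F)) :=
  (InfiniteGalois.isOpen_iff_finite K).2 hK

/-- the family condition in terms of groups -/
theorem fam_of_ampleF {I : Type} {K : I → Ext F} (hK : AmpleF K)
    (M : Subgroup (GF F)) (hM : M.Normal) (hMo : IsOpen (M : Set (GF F))) :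
    ∃ i, ∀ x : GF F, ∃ u ∈ GE (K i), ∃ m ∈ M, x = u * m := by
  have hMc : IsClosed (M : Set (GF F)) := Subgroup.isClosed_of_isOpen M hMo
  have e1 : (IntermediateField.fixedField M).fixingSubgroup = M :=
    InfiniteGalois.fixingSubgroup_fixedField ⟨M, hMc⟩
  have hfd : FiniteDimensional F (IntermediateField.fixedField M : Ext F) := by
    rw [← InfiniteGalois.isOpen_iff_finite, e1]
    exact hMo
  obtain ⟨i, hi⟩ := hK _ hfd
  refine ⟨i, fun x => ?_⟩
  set J : Subgroup (GF F) := GE (K i) ⊔ M with hJ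
  have hJo : IsOpen (J : Set (GF F)) := Subgroup.isOpen_mono le_sup_right hMo
  have hJc : IsClosed (J : Set (GF F)) := Subgroup.isClosed_of_isOpen J hJo
  have e2 : (IntermediateField.fixedField J).fixingSubgroup = J :=
    InfiniteGalois.fixingSubgroup_fixedField ⟨J, hJc⟩
  have e3 : (IntermediateField.fixedField J : Ext F) = ⊥ := by
    rw [eq_bot_iff, ← hi]
    refine le_inf ?_ ?_
    · have h1 : (IntermediateField.fixedField J : Ext F) ≤ IntermediateField.fixedField (GE (K i)) := by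
        intro y hy g
        exact hy ⟨g.1, (le_sup_left : GE (K i) ≤ J) g.2⟩
      rwa [show GE (K i) = (K i).fixingSubgroup from rfl, InfiniteGalois.fixedField_fixingSubgroup] at h1
    · intro y hy g
      exact hy ⟨g.1, (le_sup_right : M ≤ J) g.2⟩
  have e4 : J = ⊤ := by
    rw [← e2, e3]
    exact IntermediateField.fixingSubgroup_bot
  have hx : x ∈ J := by rw [e4]; trivial
  obtain ⟨u, hu, m, hm, h⟩ := Subgroup.mem_sup_of_normal_right.1 hx
  exact ⟨u, hu, m, hm, h.symm⟩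

/-- infinitely many extensions with pairwise intersection `F` form an ample family -/
theorem ample_of_pairwiseF (K : ℕ → Ext F) (h : ∀ i j, i ≠ j → K i ⊓ K j = ⊥) : AmpleF K := by
  intro M hM
  have : Algebra.IsAlgebraic F M := Algebra.IsAlgebraic.of_finite F M
  have : Algebra.IsSeparable F M := Algebra.IsAlgebraic.isSeparable_of_perfectField
  have : Finite (IntermediateField F M) :=
    Field.finite_intermediateField_of_exists_primitive_element F M (Field.exists_primitive_element F M)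
  obtain ⟨i, j, hij, he⟩ := Finite.exists_ne_map_eq_of_infinite
    (fun i => (K i).comap M.val)
  refine ⟨i, ?_⟩
  rw [eq_bot_iff, ← h i j hij]
  refine le_inf inf_le_left ?_
  rintro x ⟨hx1, hx2⟩
  have h1 : (⟨x, hx2⟩ : M) ∈ (K i).comap M.val := hx1
  have h2 : (⟨x, hx2⟩ : M) ∈ (K j).comap M.val := by
    rwa [← he]
  exact h2

/-- equality of the traces on the common part -/
theorem traces_inter {k : Type} [Field k] [TopologicalSpace k] [IsTopologicalRing k] [T2Space k]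
    {K K' : Ext F} (hK : FiniteDimensional F K) (hK' : FiniteDimensional F K')
    (Z : Finset (HeightOneSpectrum (𝓞 F))) (a : HeightOneSpectrum (𝓞 F) → Fin n → k)
    (ρ : GE K →* GL (Fin n) k) (ρ' : GE K' →* GL (Fin n) k) (hρ : Continuous ρ) (hρ' : Continuous ρ')
    (hc : ∀ v, v ∉ Z → CorrespondsDegreeOneF ρ v (a v)) (hc' : ∀ v, v ∉ Z → CorrespondsDegreeOneF ρ' v (a v))
    (x : GF F) (h1 : x ∈ GE K) (h2 : x ∈ GE K') :
    (ρ ⟨x, h1⟩ : Matrix (Fin n) (Fin n) k).trace = (ρ' ⟨x, h2⟩ : Matrix (Fin n) (Fin n) k).trace := by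
  have htrc : Continuous fun g : GE K => (ρ g : Matrix (Fin n) (Fin n) k).trace :=
    (Units.continuous_val.comp hρ).matrix_trace
  have htrc' : Continuous fun g : GE K' => (ρ' g : Matrix (Fin n) (Fin n) k).trace :=
    (Units.continuous_val.comp hρ').matrix_trace
  by_contra hne
  let H : Subgroup (GF F) := GE K ⊓ GE K'
  have hHo : IsOpen (H : Set (GF F)) := (fixing_openF K hK).inter (fixing_openF K' hK')
  let O' : Set H := {g | (ρ ⟨g, g.2.1⟩ : Matrix (Fin n) (Fin n) k).trace ≠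
    (ρ' ⟨g, g.2.2⟩ : Matrix (Fin n) (Fin n) k).trace}
  have hO' : IsOpen O' := by
    refine isOpen_ne_fun ?_ ?_
    · exact htrc.comp (Continuous.subtype_mk continuous_subtype_val fun g : H => g.2.1)
    · exact htrc'.comp (Continuous.subtype_mk continuous_subtype_val fun g : H => g.2.2)
  have hO : IsOpen (Subtype.val '' O' : Set (GF F)) := hHo.isOpenMap_subtype_val _ hO'
  have hxO : x ∈ (Subtype.val '' O' : Set (GF F)) := ⟨⟨x, h1, h2⟩, hne, rfl⟩
  obtain ⟨v, hv, P, hP, σ, hσ, g, hg, hgσ⟩ := dense_frobF _ hO hxO Z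
  have hσ' : IsGeomFrobF v P g := by rw [hgσ]; exact hσ
  obtain ⟨-, h, hh⟩ := hc v hv P hP ⟨g, g.2.1⟩ hσ'
  obtain ⟨-, h', hh'⟩ := hc' v hv P hP ⟨g, g.2.2⟩ hσ'
  apply hg
  have e : ∀ (h : GL (Fin n) k) (D : Matrix (Fin n) (Fin n) k), ((h : Matrix (Fin n) (Fin n) k) * D *
      ((h⁻¹ : GL (Fin n) k) : Matrix (Fin n) (Fin n) k)).trace = D.trace := by
    intro h D
    rw [Matrix.trace_mul_comm, ← mul_assoc, ← Units.val_mul, inv_mul_cancel, Units.val_one, one_mul]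
  rw [hh, hh', e, e]

theorem continuous_of_restrict {k : Type} [Field k] [TopologicalSpace k] [IsTopologicalRing k]
    {K : Ext F} (hK : FiniteDimensional F K) (ρ : GE K →* GL (Fin n) k) (hρ : Continuous ρ)
    (R : GF F →* GL (Fin n) k) (h : GL (Fin n) k) (hh : ∀ g : GE K, R g = h * ρ g * h⁻¹) : Continuous R := by
  refine continuous_of_continuousAt_one R ?_
  have h1 : Continuous (R ∘ (Subtype.val : GE K → GF F)) := by
    have : (R ∘ (Subtype.val : GE K → GF F)) = fun g => h * ρ g * h⁻¹ := funext hh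
    rw [this]
    exact (continuous_const.mul hρ).mul continuous_const
  exact ((fixing_openF K hK).isOpenEmbedding_subtypeVal.continuousAt_iff (x := 1)).1 h1.continuousAt

theorem corresponds_of_restrict {k : Type} [Field k] {K : Ext F} (ρ : GE K →* GL (Fin n) k)
    (R : GF F →* GL (Fin n) k) (h : GL (Fin n) k) (hh : ∀ g : GE K, R g = h * ρ g * h⁻¹)
    (v : HeightOneSpectrum (𝓞 F)) (a : Fin n → k) (hc : CorrespondsDegreeOneF ρ v a)
    (hloc : HasLocalDegreeOneF K v) : CorrespondsF R v a := by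
  obtain ⟨P₀, hP₀, hdec⟩ := hloc
  obtain ⟨P₁, σ₁', hP₁, hP₁v, hσ₁'⟩ := Pool.Agent.W571.FM.frob_cm v
  have hσ₁ : IsGeomFrobF v P₁ σ₁'⁻¹ := geom_of_arithF hσ₁'
  have hconj : ∀ Q, Above v Q → ∃ g : GF F, ∀ x : OB F, x ∈ Q ↔ g⁻¹ • x ∈ P₀ := by
    intro Q hQ
    exact Pool.Agent.W571.FM.exists_smul P₀ Q hP₀.1.isPrime hQ.1.isPrime (hP₀.2.trans hQ.2.symm)
  have hfrob_mem : ∀ σ : GF F, IsGeomFrobF v P₀ σ → σ ∈ GE K := by
    intro σ hσ
    refine hdec σ fun x hx => ?_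
    have h1 : (σ • x) ^ Ideal.absNorm v.asIdeal ∈ P₀ := by
      have := P₀.sub_mem hx (hσ x)
      rwa [sub_sub_cancel] at this
    exact hP₀.1.isPrime.mem_of_pow_mem _ h1
  have hin_mem : ∀ τ : GF F, InInertiaF P₀ τ → τ ∈ GE K := by
    intro τ hτ
    refine hdec τ fun x hx => ?_
    have := P₀.add_mem (hτ x) hx
    rwa [sub_add_cancel] at this
  obtain ⟨g₁, hg₁⟩ := hconj P₁ ⟨hP₁, hP₁v⟩
  have hσ₀ := geom_conjF' hg₁ hσ₁
  have hunr := (hc P₀ hP₀ ⟨_, hfrob_mem _ hσ₀⟩ hσ₀).1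
  constructor
  · intro Q hQ τ hτ
    obtain ⟨g, hg⟩ := hconj Q hQ
    have hτ' : InInertiaF P₀ (g⁻¹ * τ * g) := by
      intro x
      have h1 := (hg _).1 (hτ (g • x))
      rw [smul_sub, inv_smul_smul, smul_smul, smul_smul] at h1
      exact h1
    have h2 : R (g⁻¹ * τ * g) = 1 := by
      rw [show R (g⁻¹ * τ * g) = h * ρ ⟨_, hin_mem _ hτ'⟩ * h⁻¹ from hh ⟨_, hin_mem _ hτ'⟩, hunr _ hτ',
        mul_one, mul_inv_cancel]
    rw [map_mul, map_mul, map_inv] at h2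
    have h3 : R τ = R g * ((R g)⁻¹ * R τ * R g) * (R g)⁻¹ := by group
    rw [h3, h2, mul_one, mul_inv_cancel]
  · intro Q hQ σ hσ
    obtain ⟨g, hg⟩ := hconj Q hQ
    have hσ' := geom_conjF' hg hσ
    obtain ⟨-, y, hy⟩ := hc P₀ hP₀ ⟨_, hfrob_mem _ hσ'⟩ hσ'
    have h2 : R (g⁻¹ * σ * g) = h * ρ ⟨_, hfrob_mem _ hσ'⟩ * h⁻¹ := hh ⟨_, hfrob_mem _ hσ'⟩
    refine ⟨R g * h * y, ?_⟩
    have h3 : R σ = R g * h * ρ ⟨_, hfrob_mem _ hσ'⟩ * (R g * h)⁻¹ := by
      rw [map_mul, map_mul, map_inv] at h2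
      calc R σ = R g * ((R g)⁻¹ * R σ * R g) * (R g)⁻¹ := by group
        _ = _ := by rw [h2]; group
    rw [h3, Units.val_mul, Units.val_mul, hy, mul_inv_rev (R g * h) y, Units.val_mul (R g * h) y,
      Units.val_mul y⁻¹]
    simp only [mul_assoc]

/-- the main theorem over `F` -/
theorem patching_galoisF {k : Type} [Field k] [CharZero k] [TopologicalSpace k] [IsTopologicalRing k]
    [T2Space k] {I : Type} (K : I → Ext F)
    (hfin : ∀ i, FiniteDimensional F (K i)) (hK : AmpleF K) (Z : I → Finset (HeightOneSpectrum (𝓞 F)))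
    (a : HeightOneSpectrum (𝓞 F) → Fin n → k)
    (ρ : ∀ i, GE (K i) →* GL (Fin n) k) (hρ : ∀ i, Continuous (ρ i))
    (hss : ∀ i, IsSemisimpleG (ρ i))
    (hc : ∀ i v, v ∉ Z i → CorrespondsDegreeOneF (ρ i) v (a v)) :
    ∃ R : GF F →* GL (Fin n) k, Continuous R ∧ IsSemisimpleG R ∧
      (∀ i, ∃ h : GL (Fin n) k, ∀ g : GE (K i), R g = h * ρ i g * h⁻¹) ∧
      ∀ v, (∃ i, v ∉ Z i ∧ HasLocalDegreeOneF (K i) v) → CorrespondsF R v (a v) := by
  classical
  obtain ⟨R, hR, hRi⟩ := patching (fun i => GE (K i)) (fun i => fixing_openF (K i) (hfin i)) ρ hss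
    (fun i j x h1 h2 => traces_inter (hfin i) (hfin j) (Z i ∪ Z j) a (ρ i) (ρ j) (hρ i) (hρ j)
      (fun v hv => hc i v fun h => hv (Finset.mem_union_left _ h))
      (fun v hv => hc j v fun h => hv (Finset.mem_union_right _ h)) x h1 h2) (fam_of_ampleF hK)
  refine ⟨R, ?_, hR, hRi, ?_⟩
  · obtain ⟨i, -⟩ := hK ⊥ inferInstance
    obtain ⟨h, hh⟩ := hRi i
    exact continuous_of_restrict (hfin i) (ρ i) (hρ i) R h hh
  · rintro v ⟨i, hv, hloc⟩
    obtain ⟨h, hh⟩ := hRi i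
    exact corresponds_of_restrict (ρ i) R h hh v (a v) (hc i v hv) hloc

end Pool.Agent.V1142.PA
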