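import Pool.Agent.Y800.Lin
import Mathlib.NumberTheory.Padics.Complex

/-! Representations of the absolute Galois groups of the finite extensions `K ⊆ F̄` of a number field
`F`, attached to a system of semisimple classes at the places of `F`, at the places of relative degree
one. -/

set_option autoImplicit false

namespace Pool.Agent.V1142.PA

open NumberField IsDedekindDomain

/-- The absolute Galois group of `F` (with the Krull topology). -/
abbrev GF (F : Type) [Field F] : Type := Gal(AlgebraicClosure F/F)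

/-- The ring of all algebraic integers in the algebraic closure of `F`. -/
abbrev OB (F : Type) [Field F] : Type := 𝓞 (AlgebraicClosure F)

/-- The algebraic extensions of `F` in its algebraic closure. -/
abbrev Ext (F : Type) [Field F] : Type := IntermediateField F (AlgebraicClosure F)

section

variable {F : Type} [Field F] [NumberField F]

/-- The group `Gal(F̄/K)`, a subgroup of `Gal(F̄/F)`. -/
noncomputable abbrev GE (K : Ext F) : Subgroup (GF F) := K.fixingSubgroup

/-- `P` is a maximal ideal of the ring of all algebraic integers above the finite place `v` of `F`. -/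
def Above (v : HeightOneSpectrum (𝓞 F)) (P : Ideal (OB F)) : Prop :=
  P.IsMaximal ∧ P.comap (algebraMap (𝓞 F) (OB F)) = v.asIdeal

/-- `τ` lies in the inertia group at `P`. -/
def InInertiaF (P : Ideal (OB F)) (τ : GF F) : Prop := ∀ x : OB F, τ • x - x ∈ P

/-- `σ` is a geometric Frobenius element at `P`, which lies above `v`: it induces the inverse of
`x ↦ x ^ N(v)` on the residue field. -/
def IsGeomFrobF (v : HeightOneSpectrum (𝓞 F)) (P : Ideal (OB F)) (σ : GF F) : Prop :=
  ∀ x : OB F, x - (σ • x) ^ Ideal.absNorm v.asIdeal ∈ P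

variable {k : Type*} [Field k] {n : ℕ}

/-- `ρ` is unramified at `v`, with geometric Frobenius elements in the semisimple class with the
eigenvalues `a i`. -/
def CorrespondsF (ρ : GF F →* GL (Fin n) k) (v : HeightOneSpectrum (𝓞 F)) (a : Fin n → k) : Prop :=
  (∀ P, Above v P → ∀ τ, InInertiaF P τ → ρ τ = 1) ∧
  ∀ P, Above v P → ∀ σ, IsGeomFrobF v P σ → ∃ h : GL (Fin n) k, (ρ σ : Matrix (Fin n) (Fin n) k) =
    (h : Matrix (Fin n) (Fin n) k) * Matrix.diagonal a * ((h⁻¹ : GL (Fin n) k) : Matrix (Fin n) (Fin n) k)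

/-- At every place of `K` above `v` of relative degree one, the representation `ρ` of `Gal(F̄/K)` is
unramified, with geometric Frobenius elements in the semisimple class with the eigenvalues `a i`.
(`P` is a maximal ideal of the ring of all algebraic integers above `v`; the place of `K` below `P` has
relative degree one if and only if `Gal(F̄/K)` contains a geometric Frobenius element of `F` at `P`.) -/
def CorrespondsDegreeOneF {K : Ext F} (ρ : GE K →* GL (Fin n) k) (v : HeightOneSpectrum (𝓞 F))
    (a : Fin n → k) : Prop :=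
  ∀ P, Above v P → ∀ σ : GE K, IsGeomFrobF v P (σ : GF F) →
    (∀ τ : GE K, InInertiaF P (τ : GF F) → ρ τ = 1) ∧
    ∃ h : GL (Fin n) k, (ρ σ : Matrix (Fin n) (Fin n) k) =
      (h : Matrix (Fin n) (Fin n) k) * Matrix.diagonal a * ((h⁻¹ : GL (Fin n) k) : Matrix (Fin n) (Fin n) k)

/-- Every stable subspace has a stable complement. -/
def IsSemisimpleG {H : Type*} [Group H] (ρ : H →* GL (Fin n) k) : Prop :=
  ∀ W : Submodule k (Fin n → k), (∀ g, ∀ w ∈ W, (ρ g : Matrix (Fin n) (Fin n) k).mulVec w ∈ W) →
    ∃ W' : Submodule k (Fin n → k), (∀ g, ∀ w ∈ W', (ρ g : Matrix (Fin n) (Fin n) k).mulVec w ∈ W') ∧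
      IsCompl W W'

/-- There is a continuous semisimple representation `ρ` of `Gal(F̄/K)` on `ℚ̄_ℓ ^ n` which
corresponds to the classes `s v` at all places of relative degree one of `K` above the places `v ∤ ℓ`
of `F` outside `S`. -/
def RepOver (K : Ext F) (S : Set (HeightOneSpectrum (𝓞 F))) (ℓ : ℕ) [Fact ℓ.Prime]
    (s : HeightOneSpectrum (𝓞 F) → Fin n → PadicAlgCl ℓ) : Prop :=
  ∃ ρ : GE K →* GL (Fin n) (PadicAlgCl ℓ), Continuous ρ ∧ IsSemisimpleG ρ ∧
    ∀ v ∉ S, (ℓ : 𝓞 F) ∉ v.asIdeal → CorrespondsDegreeOneF ρ v (s v)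

/-- There is a continuous semisimple representation `r` of `Gal(F̄/F)` on `ℚ̄_ℓ ^ n` which
corresponds to the classes `s v` at all places `v ∤ ℓ` outside `S`. -/
def RepF (S : Set (HeightOneSpectrum (𝓞 F))) (ℓ : ℕ) [Fact ℓ.Prime]
    (s : HeightOneSpectrum (𝓞 F) → Fin n → PadicAlgCl ℓ) : Prop :=
  ∃ r : GF F →* GL (Fin n) (PadicAlgCl ℓ), Continuous r ∧ IsSemisimpleG r ∧
    ∀ v ∉ S, (ℓ : 𝓞 F) ∉ v.asIdeal → CorrespondsF r v (s v)

/-- `K` has a place above `v` with completion `F_v`: the decomposition group of some prime of `F̄`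
above `v` is contained in `Gal(F̄/K)`. -/
def HasLocalDegreeOneF (K : Ext F) (v : HeightOneSpectrum (𝓞 F)) : Prop :=
  ∃ P, Above v P ∧ ∀ σ : GF F, (∀ x ∈ P, σ • x ∈ P) → σ ∈ GE K

/-- A family of extensions of `F` is ample if every finite extension `M` of `F` meets some member
in `F`. -/
def AmpleF {I : Type} (K : I → Ext F) : Prop :=
  ∀ M : Ext F, FiniteDimensional F M → ∃ i, K i ⊓ M = ⊥

end

end Pool.Agent.V1142.PA
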