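import Pool.Agent.V1142.PA.BN

/-! Matrix representations as modules over the group algebra. -/

set_option autoImplicit false
set_option linter.all false

namespace Pool.Agent.V1142.PA

open Pool.Agent.Y800

variable {k : Type} [Field k] {G : Type} [Group G] {n : ℕ}

/-- the representation on column vectors -/
noncomputable def rep (ρ : G →* GL (Fin n) k) : Representation k G (Fin n → k) :=
  ((Matrix.toLinAlgEquiv' : Matrix (Fin n) (Fin n) k ≃ₐ[k] _) : Matrix (Fin n) (Fin n) k →* _).comp
      ((Units.coeHom (Matrix (Fin n) (Fin n) k)).comp ρ)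

theorem rep_apply (ρ : G →* GL (Fin n) k) (g : G) (v : Fin n → k) :
    rep ρ g v = (ρ g : Matrix (Fin n) (Fin n) k).mulVec v := rfl

theorem rep_eq (ρ : G →* GL (Fin n) k) (g : G) :
    rep ρ g = Matrix.toLin' (ρ g : Matrix (Fin n) (Fin n) k) := rfl

theorem semis {ρ : G →* GL (Fin n) k} (h : IsSemisimpleRep ρ) :
    IsSemisimpleModule (MonoidAlgebra k G) (rep ρ).asModule := by
  rw [← Representation.isSemisimpleRepresentation_iff_isSemisimpleModule_asModule]
  constructor
  intro W
  obtain ⟨W', hW', hc⟩ := h W.toSubmodule (fun g w hw => W.apply_mem_toSubmodule g hw)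
  refine ⟨⟨W', fun g w hw => hW' g w hw⟩, ?_⟩
  constructor
  · intro X h1 h2
    have := hc.disjoint (show X.toSubmodule ≤ W.toSubmodule from h1) (show X.toSubmodule ≤ W' from h2)
    intro x hx
    exact this hx
  · intro X h1 h2
    have := hc.codisjoint (show W.toSubmodule ≤ X.toSubmodule from h1) (show W' ≤ X.toSubmodule from h2)
    intro x hx
    exact this hx

theorem tr_rep (ρ : G →* GL (Fin n) k) (g : G) (c : k) :
    tr k (rep ρ).asModule (MonoidAlgebra.single g c) = c * (ρ g : Matrix (Fin n) (Fin n) k).trace := by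
  unfold tr
  rw [← LinearMap.trace_conj' _ (rep ρ).asModuleEquiv]
  have : (rep ρ).asModuleEquiv.conj ((Algebra.lsmul k k (rep ρ).asModule) (MonoidAlgebra.single g c)) =
      c • Matrix.toLin' (ρ g : Matrix (Fin n) (Fin n) k) := by
    apply LinearMap.ext
    intro v
    show (rep ρ).asModuleEquiv (MonoidAlgebra.single g c • ((rep ρ).asModuleEquiv.symm v)) = _
    rw [Representation.single_smul]
    rfl
  rw [this, map_smul, Matrix.trace_toLin'_eq, smul_eq_mul]

/-- **Semisimple representations with equal traces are conjugate.** -/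
theorem conj_of_traces [CharZero k] {ρ ρ' : G →* GL (Fin n) k} (h : IsSemisimpleRep ρ) (h' : IsSemisimpleRep ρ')
    (ht : ∀ g, (ρ g : Matrix (Fin n) (Fin n) k).trace = (ρ' g : Matrix (Fin n) (Fin n) k).trace) :
    ∃ P : GL (Fin n) k, ∀ g, ρ' g = P * ρ g * P⁻¹ := by
  have := semis h
  have := semis h'
  obtain ⟨e⟩ := iso_of_traces (k := k) (A := MonoidAlgebra k G) (Module.finrank k (rep ρ).asModule)
    (rep ρ).asModule (rep ρ').asModule le_rfl (by
      intro a
      induction a using MonoidAlgebra.induction_linear with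
      | zero => unfold tr; simp
      | add x y hx hy =>
        unfold tr at hx hy ⊢
        rw [map_add, map_add, map_add, map_add, hx, hy]
      | single g c => rw [tr_rep, tr_rep, ht])
  let e' : (Fin n → k) ≃ₗ[k] (Fin n → k) :=
    (rep ρ).asModuleEquiv.symm.trans ((e.restrictScalars k).trans (rep ρ').asModuleEquiv)
  have he : ∀ g v, e' ((ρ g : Matrix (Fin n) (Fin n) k).mulVec v) =
      (ρ' g : Matrix (Fin n) (Fin n) k).mulVec (e' v) := by
    intro g v
    have h1 := e.map_smul (MonoidAlgebra.of k G g) ((rep ρ).asModuleEquiv.symm v)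
    rw [← Representation.asModuleEquiv_symm_map_rho] at h1
    have h2 := congrArg (rep ρ').asModuleEquiv h1
    rw [Representation.asModuleEquiv_map_smul, Representation.asAlgebraHom_of] at h2
    exact h2
  let P : GL (Fin n) k := ⟨LinearMap.toMatrix' e'.toLinearMap, LinearMap.toMatrix' e'.symm.toLinearMap,
    by rw [← LinearMap.toMatrix'_comp]; simp, by rw [← LinearMap.toMatrix'_comp]; simp⟩
  refine ⟨P, fun g => ?_⟩
  rw [eq_mul_inv_iff_mul_eq]
  apply Units.ext
  rw [Units.val_mul, Units.val_mul]
  apply Matrix.toLin'.injective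
  rw [Matrix.toLin'_mul, Matrix.toLin'_mul]
  show _ ∘ₗ Matrix.toLin' (LinearMap.toMatrix' e'.toLinearMap) = Matrix.toLin' (LinearMap.toMatrix' e'.toLinearMap) ∘ₗ _
  rw [Matrix.toLin'_toMatrix']
  apply LinearMap.ext
  intro v
  exact (he g v).symm

end Pool.Agent.V1142.PA
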