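import Pool.Agent.V1142.PA.Mat

/-! Restriction of semisimple representations to subgroups of finite index. -/

set_option autoImplicit false
set_option linter.all false

namespace Pool.Agent.V1142.PA

open Pool.Agent.Y800

variable {k : Type} [Field k] {G : Type} [Group G] {n : ℕ}

/-- semisimplicity only depends on the image -/
theorem ss_congr {G' : Type} [Group G'] {ρ : G →* GL (Fin n) k} {ρ' : G' →* GL (Fin n) k}
    (h1 : ∀ g, ∃ g', ρ g = ρ' g') (h2 : ∀ g', ∃ g, ρ' g' = ρ g) (h : IsSemisimpleRep ρ) :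
    IsSemisimpleRep ρ' := by
  intro W hW
  obtain ⟨W', hW', hc⟩ := h W (fun g w hw => by
    obtain ⟨g', hg'⟩ := h1 g
    rw [hg']
    exact hW g' w hw)
  refine ⟨W', fun g' w hw => ?_, hc⟩
  obtain ⟨g, hg⟩ := h2 g'
  rw [hg]
  exact hW' g w hw

section cliff

variable (ρ : G →* GL (Fin n) k) (N : Subgroup G)

/-- the module of the restriction -/
abbrev RM : Type := (rep (ρ.comp N.subtype)).asModule

/-- the operator of `g` -/
noncomputable def Tg (g : G) : RM ρ N →ₗ[k] RM ρ N :=
  (rep (ρ.comp N.subtype)).asModuleEquiv.symm.toLinearMap ∘ₗ (rep ρ g) ∘ₗ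
    (rep (ρ.comp N.subtype)).asModuleEquiv.toLinearMap

theorem Tg_Tg (g h : G) (v : RM ρ N) : Tg ρ N g (Tg ρ N h v) = Tg ρ N (g * h) v := by
  show _ = (rep (ρ.comp N.subtype)).asModuleEquiv.symm (rep ρ (g * h) ((rep (ρ.comp N.subtype)).asModuleEquiv v))
  rw [map_mul]
  rfl

theorem Tg_one (v : RM ρ N) : Tg ρ N 1 v = v := by
  show (rep (ρ.comp N.subtype)).asModuleEquiv.symm (rep ρ 1 ((rep (ρ.comp N.subtype)).asModuleEquiv v)) = v
  rw [map_one]
  rfl

theorem single_smul_Tg (h : N) (c : k) (v : RM ρ N) :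
    (MonoidAlgebra.single h c • v : RM ρ N) = c • Tg ρ N h v := by
  rw [Representation.single_smul]
  rfl

variable [hN : N.Normal]

theorem Tg_smul (g : G) (h : N) (c : k) (v : RM ρ N) (h1 : g * h * g⁻¹ ∈ N) :
    Tg ρ N g (MonoidAlgebra.single h c • v) =
      MonoidAlgebra.single (⟨g * h * g⁻¹, h1⟩ : N) c • Tg ρ N g v := by
  rw [single_smul_Tg, single_smul_Tg, map_smul, Tg_Tg, Tg_Tg]
  congr 2
  group

/-- the translate of a submodule -/
noncomputable def tw (g : G) (W : Submodule (MonoidAlgebra k N) (RM ρ N)) :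
    Submodule (MonoidAlgebra k N) (RM ρ N) where
  carrier := {v | Tg ρ N g v ∈ W}
  add_mem' := by
    intro a b ha hb
    show Tg ρ N g (a + b) ∈ W
    rw [map_add]
    exact W.add_mem ha hb
  zero_mem' := by
    show Tg ρ N g 0 ∈ W
    rw [map_zero]
    exact W.zero_mem
  smul_mem' := by
    intro a v hv
    show Tg ρ N g (a • v) ∈ W
    induction a using MonoidAlgebra.induction_linear with
    | zero => rw [zero_smul, map_zero]; exact W.zero_mem
    | add x y hx hy => rw [add_smul, map_add]; exact W.add_mem hx hy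
    | single h c =>
      rw [Tg_smul ρ N g h c v (hN.conj_mem h.1 h.2 g)]
      exact W.smul_mem _ hv

theorem mem_tw {g : G} {W : Submodule (MonoidAlgebra k N) (RM ρ N)} {v : RM ρ N} :
    v ∈ tw ρ N g W ↔ Tg ρ N g v ∈ W := Iff.rfl

theorem tw_tw (g h : G) (W : Submodule (MonoidAlgebra k N) (RM ρ N)) (hgh : g * h = 1) :
    tw ρ N h (tw ρ N g W) = W := by
  ext v
  rw [mem_tw, mem_tw, Tg_Tg, hgh, Tg_one]

/-- translation as an order isomorphism -/
noncomputable def twI (g : G) : Submodule (MonoidAlgebra k N) (RM ρ N) ≃o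
    Submodule (MonoidAlgebra k N) (RM ρ N) where
  toFun := tw ρ N g
  invFun := tw ρ N g⁻¹
  left_inv := fun W => tw_tw ρ N g g⁻¹ W (mul_inv_cancel g)
  right_inv := fun W => tw_tw ρ N g⁻¹ g W (inv_mul_cancel g)
  map_rel_iff' := by
    intro W W'
    constructor
    · intro h v hv
      have h1 : Tg ρ N g⁻¹ v ∈ tw ρ N g W := by
        rw [mem_tw, Tg_Tg, mul_inv_cancel, Tg_one]
        exact hv
      have h2 : Tg ρ N g⁻¹ v ∈ tw ρ N g W' := h h1
      rwa [mem_tw, Tg_Tg, mul_inv_cancel, Tg_one] at h2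
    · intro h v hv
      exact h hv

theorem clifford (h : IsSemisimpleRep ρ) : IsSemisimpleModule (MonoidAlgebra k N) (RM ρ N) := by
  rw [← sSup_simples_eq_top_iff_isSemisimpleModule]
  set soc := sSup {S : Submodule (MonoidAlgebra k N) (RM ρ N) | IsSimpleModule (MonoidAlgebra k N) S} with hsoc
  have hst : ∀ g : G, tw ρ N g soc = soc := by
    intro g
    have h1 : twI ρ N g soc = soc := by
      rw [hsoc, OrderIso.map_sSup]
      apply le_antisymm
      · refine iSup₂_le fun S hS => le_sSup ?_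
        rw [Set.mem_setOf_eq, isSimpleModule_iff_isAtom] at hS ⊢
        exact (OrderIso.isAtom_iff (twI ρ N g) S).2 hS
      · refine sSup_le fun S hS => ?_
        have h2 : twI ρ N g ((twI ρ N g).symm S) = S := (twI ρ N g).apply_symm_apply S
        rw [← h2]
        refine le_iSup₂_of_le ((twI ρ N g).symm S) ?_ le_rfl
        rw [Set.mem_setOf_eq, isSimpleModule_iff_isAtom] at hS ⊢
        exact (OrderIso.isAtom_iff (twI ρ N g).symm S).2 hS
    exact h1
  obtain ⟨C, hC, hc⟩ := h (Subrepresentation.ofSubmodule' soc).toSubmodule (by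
    intro g w hw
    have h1 : ((rep (ρ.comp N.subtype)).asModuleEquiv.symm w) ∈ tw ρ N g soc := by rw [hst]; exact hw
    exact h1)
  let CA : Submodule (MonoidAlgebra k N) (RM ρ N) :=
    Subrepresentation.asSubmodule (ρ := rep (ρ.comp N.subtype)) ⟨C, fun g w hw => hC g w hw⟩
  have hCA : CA = ⊥ := by
    have : IsArtinian (MonoidAlgebra k N) (RM ρ N) := isArtinian_of_tower k inferInstance
    rcases eq_bot_or_exists_atom_le CA with h1 | ⟨S, hS, hSC⟩
    · exact h1
    · exfalso
      have h2 : S ≤ soc := le_sSup (by rw [Set.mem_setOf_eq, isSimpleModule_iff_isAtom]; exact hS)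
      apply hS.1
      rw [eq_bot_iff]
      intro v hv
      have h3 : (rep (ρ.comp N.subtype)).asModuleEquiv v ∈ (⊥ : Submodule k (Fin n → k)) := by
        rw [← hc.inf_eq_bot]
        exact ⟨h2 hv, hSC hv⟩
      exact h3
  rw [eq_top_iff]
  intro v _
  have h4 : (rep (ρ.comp N.subtype)).asModuleEquiv v ∈ (⊤ : Submodule k (Fin n → k)) := trivial
  rw [← hc.sup_eq_top] at h4
  obtain ⟨a, ha, b, hb, hab⟩ := Submodule.mem_sup.1 h4
  have h5 : (rep (ρ.comp N.subtype)).asModuleEquiv.symm b ∈ CA := hb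
  rw [hCA] at h5
  have h6 : b = 0 := h5
  rw [h6, add_zero] at hab
  have h7 : v = (rep (ρ.comp N.subtype)).asModuleEquiv.symm a := by rw [hab]; rfl
  rw [h7]
  exact ha

theorem ss_of_module {H : Type} [Group H] (τ : H →* GL (Fin n) k)
    (h : IsSemisimpleModule (MonoidAlgebra k H) (rep τ).asModule) : IsSemisimpleRep τ := by
  rw [← Representation.isSemisimpleRepresentation_iff_isSemisimpleModule_asModule] at h
  intro W hW
  obtain ⟨W', hW'⟩ := h.exists_isCompl ⟨W, fun g w hw => hW g w hw⟩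
  refine ⟨W'.toSubmodule, fun g w hw => W'.apply_mem_toSubmodule g hw, ?_⟩
  constructor
  · rw [disjoint_iff]
    have := hW'.inf_eq_bot
    exact congrArg Subrepresentation.toSubmodule this
  · rw [codisjoint_iff]
    have := hW'.sup_eq_top
    exact congrArg Subrepresentation.toSubmodule this

theorem clifford' (h : IsSemisimpleRep ρ) : IsSemisimpleRep (ρ.comp N.subtype) :=
  ss_of_module _ (clifford ρ N h)

end cliff

/-- averaging: a representation which is semisimple on a subgroup of finite index is semisimple -/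
theorem ss_of_restrict [CharZero k] (ρ : G →* GL (Fin n) k) (N : Subgroup G) [N.FiniteIndex]
    (h : IsSemisimpleRep (ρ.comp N.subtype)) : IsSemisimpleRep ρ := by
  classical
  intro W hW
  obtain ⟨W', hW', hc⟩ := h W (fun g w hw => hW g w hw)
  have := Fintype.ofFinite (G ⧸ N)
  let R := rep ρ
  -- the projection onto `W` along `W'`
  let π : (Fin n → k) →ₗ[k] (Fin n → k) := W.subtype ∘ₗ (W.projectionOnto W' hc)
  have hπ1 : ∀ v, π v ∈ W := fun v => (W.projectionOnto W' hc v).2
  have hπ2 : ∀ v ∈ W, π v = v := by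
    intro v hv
    have := Submodule.projectionOnto_apply_left hc ⟨v, hv⟩
    exact congrArg Subtype.val this
  have hπ3 : ∀ v ∈ W', π v = 0 := by
    intro v hv
    have := Submodule.projectionOnto_apply_right hc ⟨v, hv⟩
    exact congrArg Subtype.val this
  have hRW : ∀ (g : G), ∀ w ∈ W, R g w ∈ W := fun g w hw => hW g w hw
  have hRW' : ∀ (g : N), ∀ w ∈ W', R g w ∈ W' := fun g w hw => hW' g w hw
  -- it commutes with `N`
  have hcomm : ∀ (m : N) (v), π (R m v) = R m (π v) := by
    intro m v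
    obtain ⟨a, ha, b, hb, rfl⟩ : ∃ a ∈ W, ∃ b ∈ W', a + b = v := by
      have h4 : v ∈ (⊤ : Submodule k (Fin n → k)) := trivial
      rw [← hc.sup_eq_top] at h4
      exact Submodule.mem_sup.1 h4
    rw [map_add, map_add, map_add, map_add, hπ2 a ha, hπ3 b hb, hπ2 _ (hRW m a ha), hπ3 _ (hRW' m b hb),
      map_zero]
  have hRR : ∀ (g g' : G) (v), R g (R g' v) = R (g * g') v := by
    intro g g' v
    rw [map_mul]; rfl
  have hR1 : ∀ v, R 1 v = v := by
    intro v
    rw [map_one]; rfl
  -- conjugates of the projection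
  let cj : G → (Fin n → k) →ₗ[k] (Fin n → k) := fun g => R g ∘ₗ π ∘ₗ R g⁻¹
  have hcj : ∀ (g : G) (m : N), cj (g * m) = cj g := by
    intro g m
    apply LinearMap.ext
    intro v
    show R (g * m) (π (R (g * m)⁻¹ v)) = R g (π (R g⁻¹ v))
    have h1 : R (g * m)⁻¹ v = R (m⁻¹ : N) (R g⁻¹ v) := by
      rw [hRR]
      congr 2
      simp
    rw [h1, hcomm, hRR]
    congr 2
    simp
  have hout : ∀ (g : G), cj ((g : G ⧸ N).out) = cj g := by
    intro g
    have h1 : g⁻¹ * ((g : G ⧸ N).out) ∈ N := by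
      rw [← QuotientGroup.eq, QuotientGroup.out_eq']
    have h2 := hcj g ⟨_, h1⟩
    rw [← h2]
    congr 1
    simp
  let P : (Fin n → k) →ₗ[k] (Fin n → k) := (Fintype.card (G ⧸ N) : k)⁻¹ • ∑ q : G ⧸ N, cj q.out
  have hcard : (Fintype.card (G ⧸ N) : k) ≠ 0 := by
    exact_mod_cast Fintype.card_ne_zero
  have hPW : ∀ v, P v ∈ W := by
    intro v
    show ((Fintype.card (G ⧸ N) : k)⁻¹ • ∑ q : G ⧸ N, cj q.out) v ∈ W
    rw [LinearMap.smul_apply, LinearMap.sum_apply]
    exact W.smul_mem _ (W.sum_mem fun q _ => hRW _ _ (hπ1 _))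
  have hP2 : ∀ v ∈ W, P v = v := by
    intro v hv
    show ((Fintype.card (G ⧸ N) : k)⁻¹ • ∑ q : G ⧸ N, cj q.out) v = v
    rw [LinearMap.smul_apply, LinearMap.sum_apply]
    have : ∀ q : G ⧸ N, cj q.out v = v := by
      intro q
      show R q.out (π (R q.out⁻¹ v)) = v
      rw [hπ2 _ (hRW _ _ hv), hRR, mul_inv_cancel, hR1]
    rw [Finset.sum_congr rfl fun q _ => this q, Finset.sum_const, Finset.card_univ, ← Nat.cast_smul_eq_nsmul k,
      smul_smul, inv_mul_cancel₀ hcard, one_smul]
  have hPcomm : ∀ (g : G) (v), P (R g v) = R g (P v) := by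
    intro g v
    show ((Fintype.card (G ⧸ N) : k)⁻¹ • ∑ q : G ⧸ N, cj q.out) (R g v) =
      R g (((Fintype.card (G ⧸ N) : k)⁻¹ • ∑ q : G ⧸ N, cj q.out) v)
    rw [LinearMap.smul_apply, LinearMap.sum_apply, LinearMap.smul_apply, LinearMap.sum_apply, map_smul,
      map_sum]
    congr 1
    rw [← Equiv.sum_comp (MulAction.toPerm g : Equiv.Perm (G ⧸ N))]
    refine Finset.sum_congr rfl fun q _ => ?_
    have h1 : (MulAction.toPerm g : Equiv.Perm (G ⧸ N)) q = ((g * q.out : G) : G ⧸ N) := by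
      conv_lhs => rw [← QuotientGroup.out_eq' q]
      rfl
    rw [h1, hout]
    show R (g * q.out) (π (R (g * q.out)⁻¹ (R g v))) = R g (R q.out (π (R q.out⁻¹ v)))
    rw [hRR g, hRR _ g]
    congr 3
    group
  refine ⟨LinearMap.ker P, ?_, ?_⟩
  · intro g w hw
    rw [LinearMap.mem_ker] at hw ⊢
    have := hPcomm g w
    rw [hw, map_zero] at this
    exact this
  · constructor
    · rw [disjoint_iff, eq_bot_iff]
      rintro v ⟨h1, h2⟩
      have h3 := hP2 v h1
      have h4 : P v = 0 := h2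
      rw [h4] at h3
      exact h3.symm
    · rw [codisjoint_iff, eq_top_iff]
      intro v _
      rw [Submodule.mem_sup]
      refine ⟨P v, hPW v, v - P v, ?_, by abel⟩
      rw [LinearMap.mem_ker, map_sub, hP2 _ (hPW v), sub_self]

/-- **Restriction to subgroups of finite index preserves semisimplicity.** -/
theorem restrict_ss [CharZero k] (ρ : G →* GL (Fin n) k) (H : Subgroup G) [H.FiniteIndex]
    (h : IsSemisimpleRep ρ) : IsSemisimpleRep (ρ.comp H.subtype) := by
  have h1 := clifford' ρ H.normalCore h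
  have : (H.normalCore.subgroupOf H).FiniteIndex := inferInstance
  refine ss_of_restrict (ρ.comp H.subtype) (H.normalCore.subgroupOf H) ?_
  refine ss_congr ?_ ?_ h1
  · intro g
    exact ⟨⟨⟨g.1, H.normalCore_le g.2⟩, g.2⟩, rfl⟩
  · intro g
    exact ⟨⟨g.1.1, g.2⟩, rfl⟩

end Pool.Agent.V1142.PA
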