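import Pool.Agent.V1142.PA.SS

/-! Stable spans and the patching of two representations. -/

set_option autoImplicit false
set_option linter.all false

namespace Pool.Agent.V1142.PA

open Pool.Agent.Y800

/-- Patching two homomorphisms. -/
theorem patch {G Γ : Type} [Group G] [Group Γ] (U N : Subgroup G) [hN : N.Normal]
    (hUN : ∀ x : G, ∃ u : U, ∃ h : N, x = u * h) (σ : N →* Γ) (τ : U →* Γ)
    (hag : ∀ (x : G) (hN : x ∈ N) (hU : x ∈ U), σ ⟨x, hN⟩ = τ ⟨x, hU⟩)
    (hconj : ∀ (u : U) (h : N) (hc : (u : G)⁻¹ * h * u ∈ N), σ ⟨(u : G)⁻¹ * h * u, hc⟩ = (τ u)⁻¹ * σ h * τ u) :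
    ∃ ρ : G →* Γ, (∀ h : N, ρ h = σ h) ∧ ∀ u : U, ρ u = τ u := by
  choose a b hab using hUN
  have hwd : ∀ (u u' : U) (h h' : N), (u : G) * h = u' * h' → τ u * σ h = τ u' * σ h' := by
    intro u u' h h' he
    have h1 : (u' : G)⁻¹ * u = h' * (h : G)⁻¹ := by
      rw [inv_mul_eq_iff_eq_mul, ← mul_assoc, ← he, mul_inv_cancel_right]
    have h2 : τ (u'⁻¹ * u) = σ (h' * h⁻¹) := by
      have := hag ((h' * h⁻¹ : N) : G) (h' * h⁻¹).2 (by
        have : ((h' * h⁻¹ : N) : G) = ((u'⁻¹ * u : U) : G) := by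
          simp [h1]
        rw [this]
        exact (u'⁻¹ * u).2)
      rw [show σ (h' * h⁻¹) = σ ⟨((h' * h⁻¹ : N) : G), (h' * h⁻¹).2⟩ from rfl, this]
      congr 1
      apply Subtype.ext
      simp [h1]
    rw [map_mul, map_mul, map_inv, map_inv] at h2
    calc τ u * σ h = τ u' * ((τ u')⁻¹ * τ u) * σ h := by group
      _ = τ u' * σ h' := by rw [h2]; group
  let f : G → Γ := fun x => τ (a x) * σ (b x)
  have hf : ∀ (u : U) (h : N), f (u * h) = τ u * σ h := by
    intro u h
    exact (hwd u (a (u * h)) h (b (u * h)) (hab (u * h))).symm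
  refine ⟨MonoidHom.mk' f ?_, ?_, ?_⟩
  · intro x y
    have hc : ((a y : G))⁻¹ * (b x) * (a y) ∈ N := by
      have := hN.conj_mem _ (b x).2 ((a y : G))⁻¹
      rwa [inv_inv] at this
    have h1 : x * y = ((a x * a y : U) : G) * ((⟨_, hc⟩ * b y : N) : G) := by
      conv_lhs => rw [hab x, hab y]
      push_cast
      group
    rw [h1, hf, map_mul, map_mul, hconj]
    show _ = τ (a x) * σ (b x) * (τ (a y) * σ (b y))
    group
  · intro h
    show f h = σ h
    have := hf 1 h
    rw [map_one, one_mul] at this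
    rw [← this]
    congr 1
    simp
  · intro u
    show f u = τ u
    have := hf u 1
    rw [map_one, mul_one] at this
    rw [← this]
    congr 1
    simp

section span

variable {k : Type} [Field k] {G : Type} [Group G] [TopologicalSpace G] [IsTopologicalGroup G]
  [CompactSpace G] [TotallyDisconnectedSpace G]

/-- the span of the values on `M` -/
def Sv {B : Type} [Ring B] [Algebra k B] {H : Subgroup G} (τ : H →* B) (M : Subgroup G) : Submodule k B :=
  Submodule.span k {b | ∃ y : H, (y : G) ∈ M ∧ τ y = b}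

theorem Sv_mono {B : Type} [Ring B] [Algebra k B] {H : Subgroup G} (τ : H →* B) {M M' : Subgroup G}
    (h : M' ≤ M) : Sv (k := k) τ M' ≤ Sv (k := k) τ M :=
  Submodule.span_mono (by rintro b ⟨y, hy, rfl⟩; exact ⟨y, h hy, rfl⟩)

/-- the span on `M` does not shrink -/
def Good (k : Type) [Field k] {G : Type} [Group G] [TopologicalSpace G] {B : Type} [Ring B] [Algebra k B] {H : Subgroup G} (τ : H →* B) (M : Subgroup G) : Prop :=
  ∀ M' : Subgroup G, M'.Normal → IsOpen (M' : Set G) → M' ≤ M → Sv (k := k) τ M ≤ Sv (k := k) τ M'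

theorem exists_good {B : Type} [Ring B] [Algebra k B] [FiniteDimensional k B] {H : Subgroup G} (τ : H →* B)
    (M₀ : Subgroup G) (hn : M₀.Normal) (ho : IsOpen (M₀ : Set G)) :
    ∃ M : Subgroup G, M.Normal ∧ IsOpen (M : Set G) ∧ M ≤ M₀ ∧ Good k τ M := by
  classical
  let P : ℕ → Prop := fun d => ∃ M : Subgroup G, M.Normal ∧ IsOpen (M : Set G) ∧ M ≤ M₀ ∧
    Module.finrank k (Sv (k := k) τ M) = d
  have hP : ∃ d, P d := ⟨_, M₀, hn, ho, le_rfl, rfl⟩
  obtain ⟨M, h1, h2, h3, h4⟩ := Nat.find_spec hP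
  refine ⟨M, h1, h2, h3, fun M' h1' h2' h3' => ?_⟩
  have h5 : Nat.find hP ≤ Module.finrank k (Sv (k := k) τ M') :=
    Nat.find_min' hP ⟨M', h1', h2', h3'.trans h3, rfl⟩
  rw [← h4] at h5
  exact (Submodule.eq_of_le_of_finrank_le (Sv_mono τ h3') h5).ge

/-- open subgroups contain open normal subgroups -/
theorem exists_normal {G : Type} [Group G] [TopologicalSpace G] [IsTopologicalGroup G]
    [CompactSpace G] [TotallyDisconnectedSpace G] (W : Subgroup G) (hW : IsOpen (W : Set G)) :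
    ∃ M : Subgroup G, M.Normal ∧ IsOpen (M : Set G) ∧ M ≤ W := by
  obtain ⟨U, hU⟩ := ProfiniteGrp.exist_openNormalSubgroup_sub_open_nhds_of_one hW W.one_mem
  exact ⟨U.toSubgroup, U.isNormal', U.isOpen', hU⟩

end span

end Pool.Agent.V1142.PA
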